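import Pool.Agent.K6.H26.QW.EvSqrt
import Pool.Agent.K6.H26.QW.BoxSw

set_option autoImplicit false

/-! # Sizes for large `Z` -/

namespace Pool.Agent.K6.H26.PT

open Filter
open Pool.Agent.H256R2.SC (ff)
open Pool.Agent.H378R2.QG (w0)

/-- the shifts are smaller than `w0` -/
theorem ev_w (F c : ℝ) (hF : 0 < F) (hc : 0 < c) : ∃ X₀ : ℝ, ∀ Z : ℝ, X₀ ≤ Z → ∀ D K : ℝ, 0 ≤ D →
    Real.log Z ≤ K → D * K ≤ c * ff Z → F * D + F < w0 (Real.log (Real.sqrt Z) / 10) := by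
  obtain ⟨X₁, hw⟩ := Pool.Agent.K6.H26.QW.ev_w0
  -- for `u` large
  obtain ⟨G, hG⟩ : ∃ G : ℝ, G = F * c * 4 + F := ⟨_, rfl⟩
  have hG0 : 0 < G := by rw [hG]; positivity
  have h1 : ∀ᶠ u : ℝ in atTop, G * u ^ 5 < Real.exp u ∧ 1 ≤ u := by
    have h := (Real.isLittleO_pow_exp_atTop (n := 5)).def (show (0:ℝ) < 1 / (2 * G) by positivity)
    filter_upwards [h, eventually_ge_atTop (1:ℝ)] with u hu hu1
    rw [Real.norm_eq_abs, Real.norm_eq_abs, abs_of_nonneg (by positivity), abs_of_nonneg (Real.exp_pos u).le] at hu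
    refine ⟨?_, hu1⟩
    have h2 : G * u ^ 5 ≤ G * (1 / (2 * G) * Real.exp u) := mul_le_mul_of_nonneg_left hu hG0.le
    have h3 : G * (1 / (2 * G) * Real.exp u) = Real.exp u / 2 := by field_simp
    have h4 := Real.exp_pos u
    linarith
  have h2 : ∀ᶠ s : ℝ in atTop, G * (Real.sqrt s) ^ 5 < Real.exp (Real.sqrt s) ∧ 1 ≤ Real.sqrt s :=
    Real.tendsto_sqrt_atTop.eventually h1
  have h3 : ∀ᶠ s : ℝ in atTop, 40 * Real.log s ≤ Real.sqrt s ∧ 1 ≤ s := by
    have h := (isLittleO_log_rpow_atTop (r := 1 / 2) (by norm_num)).def (show (0:ℝ) < 1 / 40 by norm_num)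
    filter_upwards [h, eventually_ge_atTop (1:ℝ)] with s hs hs1
    rw [Real.norm_eq_abs, Real.norm_eq_abs, abs_of_nonneg (Real.log_nonneg hs1),
      abs_of_nonneg (by positivity), ← Real.sqrt_eq_rpow] at hs
    exact ⟨by linarith, hs1⟩
  have h4 : ∀ᶠ s : ℝ in atTop, 1 ≤ Real.log (Real.log s) ∧ 1 ≤ Real.log s :=
    ((Real.tendsto_log_atTop.comp Real.tendsto_log_atTop).eventually_ge_atTop 1).and
      (Real.tendsto_log_atTop.eventually_ge_atTop 1)
  have hll : Tendsto (fun Z : ℝ => Real.log (Real.log (Real.sqrt Z))) atTop atTop :=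
    Real.tendsto_log_atTop.comp (Real.tendsto_log_atTop.comp Real.tendsto_sqrt_atTop)
  have hll2 : Tendsto (fun Z : ℝ => Real.log (Real.log Z)) atTop atTop :=
    Real.tendsto_log_atTop.comp Real.tendsto_log_atTop
  have h5 := hll.eventually ((h2.and h3).and h4)
  have h6 := hll2.eventually h4
  have h7 : ∀ᶠ Z : ℝ in atTop, X₁ ≤ Real.sqrt Z := Real.tendsto_sqrt_atTop.eventually_ge_atTop X₁
  obtain ⟨X₀, hX₀⟩ := eventually_atTop.1 ((h5.and h6).and (h7.and (eventually_ge_atTop (16 : ℝ))))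
  refine ⟨X₀, fun Z hZ D K hD hK hDK => ?_⟩
  obtain ⟨⟨⟨⟨⟨a1, a2⟩, a3, a4⟩, a5, a6⟩, a7, a8⟩, a9, a10⟩ := hX₀ Z hZ
  obtain ⟨w1, w2, w3, w4, w5⟩ := hw _ a9
  have hZ0 : 0 < Z := by linarith
  have hlZ : Real.log (Real.sqrt Z) = Real.log Z / 2 := by rw [Real.log_sqrt hZ0.le]
  obtain ⟨s, hs⟩ : ∃ s : ℝ, s = Real.log (Real.log (Real.sqrt Z)) := ⟨_, rfl⟩
  rw [← hs] at a1 a2 a3 a4 a5 a6 w5
  have hlZ0 : 0 < Real.log Z := by
    apply Real.log_pos; linarith
  obtain ⟨L, hL⟩ : ∃ L : ℝ, L = Real.log (Real.log Z) := ⟨_, rfl⟩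
  have hLs : L = Real.log 2 + s := by
    rw [hL, hs, hlZ, ← Real.log_mul (by norm_num) (by positivity)]
    congr 1
    ring
  have hlog2 : Real.log 2 ≤ 1 := by
    have := Real.log_two_lt_d9
    linarith
  have hL2 : L ≤ 2 * s := by linarith
  rw [← hL] at a7 a8
  have hL0 : 0 < L := by
    have : 0 ≤ Real.log 2 := Real.log_nonneg (by norm_num)
    linarith
  -- the size of `D`
  have hDL : D ≤ c * L ^ 2 := by
    unfold ff at hDK
    rw [← hL] at hDK
    have e1 : Real.log (Real.log L) ≤ (Real.log L) ^ 2 := by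
      have := Real.log_le_sub_one_of_pos (show 0 < Real.log L by linarith)
      nlinarith
    have e2 : Real.log Z * L ^ 2 * Real.log (Real.log L) / (Real.log L) ^ 2 ≤ Real.log Z * L ^ 2 := by
      rw [div_le_iff₀ (by positivity)]
      exact mul_le_mul_of_nonneg_left e1 (by positivity)
    have e3 : D * Real.log Z ≤ D * K := mul_le_mul_of_nonneg_left hK hD
    have e4 : c * (Real.log Z * L ^ 2 * Real.log (Real.log L) / (Real.log L) ^ 2) ≤
        c * (Real.log Z * L ^ 2) := mul_le_mul_of_nonneg_left e2 hc.le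
    have e5 : D * Real.log Z ≤ (c * L ^ 2) * Real.log Z := by linarith
    exact le_of_mul_le_mul_right e5 hlZ0
  have hs0 : 0 < s := by linarith
  have hD2 : F * D + F ≤ G * s ^ 2 := by
    have e1 : L ^ 2 ≤ 4 * s ^ 2 := by nlinarith
    have e2 : F * D ≤ F * (c * (4 * s ^ 2)) := by
      apply mul_le_mul_of_nonneg_left _ hF.le
      exact hDL.trans (mul_le_mul_of_nonneg_left e1 hc.le)
    have e3 : F ≤ F * s ^ 2 := by
      have : 1 ≤ s ^ 2 := one_le_pow₀ a4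
      nlinarith
    rw [hG]
    nlinarith
  -- the size of `w0`
  have hw0 : Real.exp (Real.sqrt s) ≤ w0 (Real.log (Real.sqrt Z) / 10) := by
    have e1 : Real.sqrt s ≤ s * Real.log (Real.log s) / (40 * Real.log s) := by
      have hls : 0 < Real.log s := by linarith
      rw [le_div_iff₀ (by positivity)]
      have e2 : Real.sqrt s * Real.sqrt s = s := Real.mul_self_sqrt hs0.le
      have e3 : Real.sqrt s * (40 * Real.log s) ≤ Real.sqrt s * Real.sqrt s :=
        mul_le_mul_of_nonneg_left a3 (Real.sqrt_nonneg s)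
      nlinarith
    have e4 := e1.trans w5
    rw [← Real.exp_log (show 0 < w0 (Real.log (Real.sqrt Z) / 10) by linarith)]
    exact Real.exp_le_exp.2 e4
  have hfin : G * s ^ 2 ≤ G * (Real.sqrt s) ^ 5 := by
    apply mul_le_mul_of_nonneg_left _ hG0.le
    have e2 : s ^ 2 = (Real.sqrt s) ^ 4 := by
      have : (Real.sqrt s) ^ 2 = s := Real.sq_sqrt hs0.le
      calc s ^ 2 = ((Real.sqrt s) ^ 2) ^ 2 := by rw [this]
        _ = _ := by ring
    rw [e2]
    exact pow_le_pow_right₀ a2 (by norm_num)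
  linarith

/-- the large prime divisors and the size of the parameters -/
theorem ev_big (F α ε : ℝ) (hF : 0 < F) (hα : 1 ≤ α) (hε : 0 < ε) : ∃ X₀ : ℝ, ∀ Z : ℝ, X₀ ≤ Z →
    F ≤ (Real.log Z) ^ (1 / 60 : ℝ) ∧ ((Real.log Z) ^ (1 / 60 : ℝ)) ^ 4 ≤ Real.log Z ∧
    F ≤ Real.sqrt Z ∧ F * (Real.log Z) ^ (1 / 60 : ℝ) + F * Real.sqrt Z ≤ Z ∧
    1 < Real.log (Real.sqrt Z) / 10 ∧ ∀ N : ℝ, 0 < N → N ≤ Z ^ α + Z + F →
      Real.log N / (Real.log (Real.sqrt Z) / 10 * Real.log (Real.log (Real.sqrt Z) / 10)) ≤ ε := by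
  have h1 : ∀ᶠ Z : ℝ in atTop, F ≤ (Real.log Z) ^ (1 / 60 : ℝ) :=
    ((tendsto_rpow_atTop (by norm_num)).comp Real.tendsto_log_atTop).eventually_ge_atTop F
  have h2 : ∀ᶠ Z : ℝ in atTop, 2 * F + 1 ≤ Real.sqrt Z := Real.tendsto_sqrt_atTop.eventually_ge_atTop _
  have hls : Tendsto (fun Z : ℝ => Real.log (Real.sqrt Z) / 10) atTop atTop :=
    (Real.tendsto_log_atTop.comp Real.tendsto_sqrt_atTop).atTop_div_const (by norm_num)
  have h3 : ∀ᶠ Z : ℝ in atTop, 1 < Real.log (Real.sqrt Z) / 10 := hls.eventually_gt_atTop 1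
  have h4 : ∀ᶠ Z : ℝ in atTop, 40 * α / ε ≤ Real.log (Real.log (Real.sqrt Z) / 10) :=
    (Real.tendsto_log_atTop.comp hls).eventually_ge_atTop _
  have h5 : ∀ᶠ Z : ℝ in atTop, Real.log Z ≤ Real.sqrt Z := by
    have h := (isLittleO_log_rpow_atTop (r := 1 / 2) (by norm_num)).def one_pos
    filter_upwards [h, eventually_ge_atTop (1:ℝ)] with s hs hs1
    rw [Real.norm_eq_abs, Real.norm_eq_abs, abs_of_nonneg (Real.log_nonneg hs1),
      abs_of_nonneg (by positivity), ← Real.sqrt_eq_rpow] at hs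
    linarith
  obtain ⟨X₀, hX₀⟩ := eventually_atTop.1 (((h1.and h2).and (h3.and h4)).and
    ((h5.and (eventually_ge_atTop (F + 3))).and (Real.tendsto_log_atTop.eventually_ge_atTop 1)))
  refine ⟨X₀, fun Z hZ => ?_⟩
  obtain ⟨⟨⟨a1, a2⟩, a3, a4⟩, ⟨a5, a6⟩, a7⟩ := hX₀ Z hZ
  have hZ0 : 0 < Z := by linarith
  have hlZ : Real.log (Real.sqrt Z) = Real.log Z / 2 := by rw [Real.log_sqrt hZ0.le]
  have hsq : Real.sqrt Z * Real.sqrt Z = Z := Real.mul_self_sqrt hZ0.le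
  have hs1 : 1 ≤ Real.sqrt Z := by linarith
  have hw1 : (Real.log Z) ^ (1 / 60 : ℝ) ≤ Real.log Z := by
    conv_rhs => rw [← Real.rpow_one (Real.log Z)]
    exact Real.rpow_le_rpow_of_exponent_le a7 (by norm_num)
  refine ⟨a1, ?_, by linarith, ?_, a3, fun N hN0 hN => ?_⟩
  · have e6 : ((Real.log Z) ^ (1 / 60 : ℝ)) ^ 4 = (Real.log Z) ^ (1 / 15 : ℝ) := by
      rw [← Real.rpow_natCast, ← Real.rpow_mul (by linarith)]; norm_num
    rw [e6]
    conv_rhs => rw [← Real.rpow_one (Real.log Z)]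
    exact Real.rpow_le_rpow_of_exponent_le a7 (by norm_num)
  · have e1 : F * (Real.log Z) ^ (1 / 60 : ℝ) ≤ F * Real.sqrt Z :=
      mul_le_mul_of_nonneg_left (hw1.trans a5) hF.le
    have e2 : (2 * F) * Real.sqrt Z ≤ Real.sqrt Z * Real.sqrt Z :=
      mul_le_mul_of_nonneg_right (by linarith) (by linarith)
    linarith
  · have hα0 : 0 < α := by linarith
    have hZa : Z ≤ Z ^ α := by
      conv_lhs => rw [← Real.rpow_one Z]
      exact Real.rpow_le_rpow_of_exponent_le (by linarith) hα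
    have e1 : N ≤ Z ^ α * Z ^ α := by nlinarith
    have e2 : Real.log N ≤ 2 * α * Real.log Z := by
      have := Real.log_le_log hN0 e1
      rw [← Real.rpow_add hZ0, Real.log_rpow hZ0] at this
      linarith
    have hll : 0 < Real.log (Real.log (Real.sqrt Z) / 10) := Real.log_pos a3
    rw [div_le_iff₀ (by positivity)]
    refine e2.trans ?_
    rw [div_le_iff₀ hε] at a4
    rw [hlZ] at a4 ⊢
    have e3 : 40 * α * (Real.log Z / 2 / 10) ≤
        Real.log (Real.log Z / 2 / 10) * ε * (Real.log Z / 2 / 10) :=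
      mul_le_mul_of_nonneg_right a4 (by positivity)
    linarith

end Pool.Agent.K6.H26.PT
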