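import Pool.Agent.K6.H26.QW.Main

set_option autoImplicit false
set_option linter.unusedSectionVars false

/-! # Prime-free neighbourhoods of the values of many polynomials, with all residue classes

The same proof as `Pool.Agent.K6.H26.QW.main_gen`; the conclusion gives the classes of `x` modulo all primes up to
`log Z / 10`. -/

namespace Pool.Agent.K6.H26.PT

open Finset Filter
open Pool.Agent.H256R2.SC (ff)
open Pool.Agent.H256R2.SC.LG (ana exists_crt count_Ioc)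
open Pool.Agent.H378R2.QG
open Pool.Agent.K6.H26.QW

open scoped Classical

/-- **The general theorem.** -/
theorem main_cls (sw : Bool) : ∃ c : ℝ, 0 < c ∧ ∃ Z₀ : ℝ, ∀ Z : ℝ, Z₀ ≤ Z → ∀ M : ℝ, Z ≤ M →
    ∀ (T : Finset (ℤ × ℤ)) (r : ℕ) (K : ℝ), T.Nonempty → Real.log Z ≤ K →
    (∀ t ∈ T, 0 ≤ t.1 ∧ (t.1 : ℝ) ≤ (Real.log Z) ^ (1 / 20 : ℝ) ∧
      |(t.2 : ℝ)| ≤ (Real.log Z) ^ (1 / 20 : ℝ) ∧ (t.1 = 0 → 0 < t.2)) →
    (∀ t ∈ T, ss r t ≠ 0 ∧ |(ss r t : ℝ)| ≤ Real.log Z) →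
    (∑ t ∈ T, GG (ss r t) ^ 2) * K ≤ c * ff Z →
    ∃ x : ℕ, M < x ∧ (x : ℝ) ≤ M + Z ∧
      (∀ p : ℕ, p.Prime → (p : ℝ) ≤ Real.log Z / 10 →
        (p : ℤ) ∣ (x : ℤ) - (cc sw r (Real.log Z / 10) p : ℤ)) ∧
      ∀ t ∈ T, ∀ q : ℕ, q.Prime → K < |(q : ℝ) - (t.1 * (x : ℝ) ^ 2 + t.2 * x)| := by
  obtain ⟨c₁, hc₁, X₁, hcov⟩ := qcovm
  obtain ⟨C, hC, y₀, hsur⟩ := survivors_shift
  obtain ⟨y₁, hy₁⟩ := Pool.Agent.Y837.SV.ev_w0
  obtain ⟨c', hc', X₂, hana⟩ := ana (y₀ := max (max y₀ y₁) 10) (show 0 < c₁ / 4 by positivity) hC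
  obtain ⟨X₃, hev⟩ := ev_main
  refine ⟨c' / 4, by positivity, max (max X₁ X₂) X₃, fun Z hZ M hM T r K hTne hK hT hs hsum => ?_⟩
  obtain ⟨L₀, hL₀⟩ : ∃ L₀ : ℕ, L₀ = ⌊c' * ff Z⌋₊ := ⟨_, rfl⟩
  obtain ⟨L, hL⟩ : ∃ L : ℝ, L = Real.log Z := ⟨_, rfl⟩
  obtain ⟨y, hy⟩ : ∃ y : ℝ, y = Real.log Z / 10 := ⟨_, rfl⟩
  obtain ⟨a1, a2, a3, a4, a5, a6, a7, a8, a9, a10, a11, a12, a13, a14, a15, a16, a17⟩ :=
    hana Z (((le_max_right _ _).trans (le_max_left _ _)).trans hZ) y _ hy rfl L₀ hL₀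
  obtain ⟨b1, b2, b3, b4, b5⟩ := hev Z ((le_max_right _ _).trans hZ)
  have hcovZ := hcov Z (((le_max_left _ _).trans (le_max_left _ _)).trans hZ)
  have hy0' : y₀ ≤ y := ((le_max_left _ _).trans (le_max_left _ _)).trans a3
  have hy1' : y₁ ≤ y := ((le_max_right _ _).trans (le_max_left _ _)).trans a3
  have hy10 : 10 ≤ y := (le_max_right _ _).trans a3
  have hmed := hy₁ y hy1'
  have hZ0 : 0 < Z := by nlinarith [sq_nonneg (Real.log Z), sq_nonneg ((Real.log Z) ^ 2)]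
  have hLpos : 0 < L := by rw [hL]; linarith
  rw [← hL] at b1 b3
  have hLy : L = 10 * y := by rw [hL, hy]; ring
  -- the sizes
  have hG1 : ∀ t ∈ T, 1 ≤ GG (ss r t) ^ 2 := fun t ht => one_le_pow₀ (GG_ge_one (hs t ht).1)
  have hGsum : 1 ≤ ∑ t ∈ T, GG (ss r t) ^ 2 := by
    obtain ⟨t, ht⟩ := hTne
    refine (hG1 t ht).trans ?_
    exact Finset.single_le_sum (f := fun t => GG (ss r t) ^ 2) (fun t _ => sq_nonneg _) ht
  have hK0 : 0 < K := by rw [← hL] at hK; linarith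
  have hKff : K ≤ c' / 4 * ff Z := by
    refine le_trans ?_ hsum
    nlinarith
  have hL₀' : c' * ff Z < L₀ + 1 := by rw [hL₀]; exact Nat.lt_floor_add_one _
  have hL₀1 : (10 : ℝ) ≤ L₀ := hy10.trans a5
  obtain ⟨R, hR⟩ : ∃ R : ℕ, R = ⌊K⌋₊ := ⟨_, rfl⟩
  have hRK : (R : ℝ) ≤ K := by rw [hR]; exact Nat.floor_le hK0.le
  have hKR : K < R + 1 := by rw [hR]; exact Nat.lt_floor_add_one _
  have h2R : ((2 * R : ℕ) : ℝ) ≤ L₀ := by
    push_cast
    linarith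
  have hyR : y ≤ ((2 * R : ℕ) : ℝ) := by
    push_cast
    rw [← hL, hLy] at hK
    linarith
  have hRy : ((2 * R : ℕ) : ℝ) ≤ y * (Real.log y) ^ 2 := h2R.trans a7
  have hR26 : (R : ℝ) ≤ L ^ (26 / 25 : ℝ) := by
    have h1 : (R : ℝ) ≤ ((2 * R : ℕ) : ℝ) := by push_cast; linarith [Nat.cast_nonneg (α := ℝ) R]
    have h2 : y * (Real.log y) ^ 2 ≤ L ^ (26 / 25 : ℝ) := by rw [hL, hy]; exact b2
    linarith
  have hRL2 : (R : ℝ) ≤ L ^ 2 := by
    have h1 : (R : ℝ) ≤ ((2 * R : ℕ) : ℝ) := by push_cast; linarith [Nat.cast_nonneg (α := ℝ) R]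
    have h2 : (L₀ : ℝ) ≤ L ^ 2 := by rw [hL]; exact a9
    linarith
  have hα : L ^ (1 / 20 : ℝ) ≤ L := by
    conv_rhs => rw [← Real.rpow_one L]
    exact Real.rpow_le_rpow_of_exponent_le (by linarith) (by norm_num)
  -- the small primes
  obtain ⟨P, hP⟩ : ∃ P : ℕ, P = primorial ⌊y⌋₊ := ⟨_, rfl⟩
  have hP0 : 0 < P := by rw [hP]; exact primorial_pos _
  obtain ⟨b0, hb0, hb0'⟩ := exists_crt ⌊y⌋₊ (cc sw r y)
  -- the survivors
  obtain ⟨W, hW⟩ : ∃ W : ℤ × ℤ → Finset ℤ, W = fun t => (Finset.Icc (-(R : ℤ)) R).filter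
      (fun h : ℤ => ∀ p : ℕ, p.Prime → (p : ℝ) ≤ y →
        ¬ (p : ℤ) ∣ t.1 * (cc sw r y p : ℤ) ^ 2 + t.2 * (cc sw r y p : ℤ) + h) := ⟨_, rfl⟩
  obtain ⟨S, hS⟩ : ∃ S : Finset (ℤ × ℤ × ℤ), S = T.biUnion (fun t => ((W t).filter (fun h =>
      (∀ d : ℤ, d ∣ t.1 → d ∣ t.2 → d ∣ h → IsUnit d) ∧
      (t.1 ≠ 0 → ¬ IsSquare (disc (t.1, t.2, h))))).image (fun h => (t.1, t.2, h))) := ⟨_, rfl⟩
  have hWcard : ∀ t ∈ T, ((W t).card : ℝ) ≤ C * GG (ss r t) ^ 2 * ((2 * R : ℕ) : ℝ) *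
      (Real.log (Real.log y)) ^ 2 / ((Real.log y) ^ 2 * Real.log (Real.log (Real.log y))) := by
    intro t ht
    have hsR : |ss r t| ≤ (R : ℤ) := by
      have h1 : |(ss r t : ℝ)| ≤ K := (hs t ht).2.trans hK
      have h2 : (ss r t).natAbs ≤ R := by
        rw [hR]
        apply Nat.le_floor
        rw [Nat.cast_natAbs]
        push_cast
        exact h1
      rw [Int.abs_eq_natAbs]
      exact_mod_cast h2
    have h1 := window_card hy10 hmed sw r R t hsR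
    have hs0 : (if sw then -ss r t else ss r t) ≠ 0 := by
      have := (hs t ht).1
      split_ifs
      · exact neg_ne_zero.2 this
      · exact this
    have h2 := hsur y hy0' (2 * R) hyR hRy _ hs0
    have hGe : GG (if sw then -ss r t else ss r t) = GG (ss r t) := by
      split_ifs
      · unfold GG; rw [Int.natAbs_neg]
      · rfl
    rw [hGe] at h2
    refine le_trans ?_ h2
    rw [hW]
    exact_mod_cast h1
  have hScard : (S.card : ℝ) ≤ c₁ * Real.log Z := by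
    have h1 : (S.card : ℝ) ≤ ∑ t ∈ T, ((W t).card : ℝ) := by
      rw [hS]
      refine le_trans (Nat.cast_le.2 Finset.card_biUnion_le) ?_
      push_cast
      apply Finset.sum_le_sum
      intro t _
      exact_mod_cast (Finset.card_image_le.trans (Finset.card_filter_le _ _))
    refine h1.trans ((Finset.sum_le_sum hWcard).trans ?_)
    obtain ⟨F, hF⟩ : ∃ F : ℝ, F = (Real.log (Real.log y)) ^ 2 /
      ((Real.log y) ^ 2 * Real.log (Real.log (Real.log y))) := ⟨_, rfl⟩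
    have e1 : ∑ t ∈ T, C * GG (ss r t) ^ 2 * ((2 * R : ℕ) : ℝ) *
        (Real.log (Real.log y)) ^ 2 / ((Real.log y) ^ 2 * Real.log (Real.log (Real.log y))) =
        2 * (C * F) * ((∑ t ∈ T, GG (ss r t) ^ 2) * R) := by
      rw [Finset.sum_mul, Finset.mul_sum]
      apply Finset.sum_congr rfl
      intro t _
      rw [hF]
      push_cast
      ring
    have e2 : C * L₀ * F ≤ c₁ / 4 * Real.log Z := by
      rw [hF, ← mul_div_assoc]
      exact a8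
    rw [e1]
    have e3 : (∑ t ∈ T, GG (ss r t) ^ 2) * R ≤ 2 * L₀ := by
      have h2 : (∑ t ∈ T, GG (ss r t) ^ 2) * R ≤ (∑ t ∈ T, GG (ss r t) ^ 2) * K :=
        mul_le_mul_of_nonneg_left hRK (by linarith)
      have h3 : 0 ≤ c' * ff Z := a17
      linarith
    have e4 : 0 ≤ C * F ∨ C * F < 0 := le_or_gt 0 _
    rcases e4 with e4 | e4
    · have e5 : 2 * (C * F) * ((∑ t ∈ T, GG (ss r t) ^ 2) * R) ≤ 2 * (C * F) * (2 * L₀) :=
        mul_le_mul_of_nonneg_left e3 (by linarith)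
      have e6 : 2 * (C * F) * (2 * L₀) = 4 * (C * L₀ * F) := by ring
      linarith
    · have e5 : 0 ≤ (∑ t ∈ T, GG (ss r t) ^ 2) * (R : ℝ) := by positivity
      have e6 : 2 * (C * F) * ((∑ t ∈ T, GG (ss r t) ^ 2) * R) ≤ 0 :=
        mul_nonpos_of_nonpos_of_nonneg (by linarith) e5
      have e7 : 0 ≤ c₁ * Real.log Z := mul_nonneg hc₁.le a2
      linarith
  have hmemS : ∀ t : ℤ × ℤ × ℤ, t ∈ S ↔ (t.1, t.2.1) ∈ T ∧ t.2.2 ∈ W (t.1, t.2.1) ∧
      (∀ d : ℤ, d ∣ t.1 → d ∣ t.2.1 → d ∣ t.2.2 → IsUnit d) ∧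
      (t.1 ≠ 0 → ¬ IsSquare (disc t)) := by
    intro t
    rw [hS, Finset.mem_biUnion]
    constructor
    · rintro ⟨u, hu, hm⟩
      rw [Finset.mem_image] at hm
      obtain ⟨h, hh, rfl⟩ := hm
      rw [Finset.mem_filter] at hh
      exact ⟨hu, hh.1, hh.2.1, hh.2.2⟩
    · rintro ⟨h1, h2, h3, h4⟩
      refine ⟨(t.1, t.2.1), h1, ?_⟩
      rw [Finset.mem_image]
      exact ⟨t.2.2, Finset.mem_filter.2 ⟨h2, h3, h4⟩, rfl⟩
  have hWb : ∀ t h, h ∈ W t → |(h : ℝ)| ≤ R := by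
    intro t h hh
    rw [hW] at hh
    simp only at hh
    rw [Finset.mem_filter, Finset.mem_Icc] at hh
    have : |h| ≤ (R : ℤ) := abs_le.2 hh.1
    exact_mod_cast this
  have hSadm : ∀ t ∈ S, Adm (Real.log Z) t := by
    intro t ht
    rw [hmemS] at ht
    obtain ⟨h1, h2, h3, h4⟩ := ht
    obtain ⟨g1, g2, g3, g4⟩ := hT _ h1
    simp only at g1 g2 g3 g4
    refine ⟨?_, g3, ?_, h4, fun h => (g4 h).ne'⟩
    · rw [abs_of_nonneg (by exact_mod_cast g1)]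
      exact g2
    · rw [← hL]
      exact (hWb _ _ h2).trans hR26
  have hSpar : ∀ t ∈ S, ∀ t' ∈ S, Par t t' → t = t' := by
    intro t ht t' ht' hp
    rw [hmemS] at ht ht'
    obtain ⟨h1, h2, h3, h4⟩ := ht
    obtain ⟨h1', h2', h3', h4'⟩ := ht'
    obtain ⟨g1, g2, g3, g4⟩ := hT _ h1
    obtain ⟨g1', g2', g3', g4'⟩ := hT _ h1'
    exact prim_par g1 g4 g1' g4' h3 h3' hp
  -- the set of the `x`
  obtain ⟨A, hA⟩ : ∃ A : ℤ, A = ⌊M⌋ := ⟨_, rfl⟩
  obtain ⟨B, hB⟩ : ∃ B : ℤ, B = ⌊M + Z⌋ := ⟨_, rfl⟩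
  have hAB : A ≤ B := by rw [hA, hB]; exact Int.floor_mono (by linarith)
  have hA1 : (A : ℝ) ≤ M := by rw [hA]; exact Int.floor_le _
  have hA2 : M < (A : ℝ) + 1 := by rw [hA]; exact Int.lt_floor_add_one _
  have hB1 : (B : ℝ) ≤ M + Z := by rw [hB]; exact Int.floor_le _
  have hB2 : M + Z < (B : ℝ) + 1 := by rw [hB]; exact Int.lt_floor_add_one _
  have hPR : (0 : ℝ) < P := by exact_mod_cast hP0
  rw [← hP] at a11
  have hL4 : (1:ℝ) ≤ L ^ 4 := one_le_pow₀ (by linarith)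
  have hN : Z ^ (1 / 2 : ℝ) ≤ ((B : ℝ) - A) / P := by
    rw [le_div_iff₀ hPR]
    have h1 : Z ^ (1 / 2 : ℝ) * Z ^ (1 / 2 : ℝ) = Z := by
      rw [← Real.rpow_add hZ0]; norm_num
    have h2 : 0 < Z ^ (1 / 2 : ℝ) := Real.rpow_pos_of_pos hZ0 _
    have h3 : Z ^ (1 / 2 : ℝ) * (4 * (P : ℝ)) ≤ Z := by
      calc Z ^ (1 / 2 : ℝ) * (4 * (P : ℝ)) ≤ Z ^ (1 / 2 : ℝ) * Z ^ (1 / 2 : ℝ) :=
            mul_le_mul_of_nonneg_left a11 h2.le
        _ = Z := h1
    linarith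
  obtain ⟨x, hx, hxS⟩ := hcovZ S hSadm hSpar hScard ((Ioc A B).filter (fun x => (P : ℤ) ∣ x - b0))
    (((B : ℝ) - A) / P) 1 hN zero_le_one b4 (fun q hq1 hq2 hq3 s => by
      have hq0 : 0 < q := Nat.pos_of_ne_zero hq1.ne_zero
      have hcop : Nat.Coprime P q := by
        rw [Nat.coprime_iff_gcd_eq_one]
        by_contra hne
        obtain ⟨p, hp, hpd⟩ := Nat.exists_prime_and_dvd hne
        have h1 : p ∣ P := hpd.trans (Nat.gcd_dvd_left _ _)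
        have h2 : p ∣ q := hpd.trans (Nat.gcd_dvd_right _ _)
        have h3 := hq3 p (Nat.mem_primeFactors.mpr ⟨hp, h2, hq0.ne'⟩)
        rw [hP, primorial] at h1
        rw [Prime.dvd_finsetProd_iff hp.prime] at h1
        obtain ⟨p', hp', hpp'⟩ := h1
        rw [Finset.mem_filter, Finset.mem_range] at hp'
        have h4 : p = p' := (Nat.prime_dvd_prime_iff_eq hp hp'.2).1 hpp'
        have h5 : (p : ℝ) ≤ y := by
          have : p ≤ ⌊y⌋₊ := by omega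
          calc (p : ℝ) ≤ (⌊y⌋₊ : ℝ) := by exact_mod_cast this
            _ ≤ y := Nat.floor_le a4
        rw [← hL] at h3
        have h6 : L ≤ L ^ 3 := le_self_pow₀ (by linarith) (by norm_num)
        linarith
      exact count_two A B hAB P q hP0 hq0 hcop b0 s)
  rw [Finset.mem_filter, Finset.mem_Ioc] at hx
  obtain ⟨⟨hx1, hx2⟩, hx3⟩ := hx
  have hxM : M < (x : ℝ) := by
    have : (A : ℝ) + 1 ≤ x := by exact_mod_cast hx1
    linarith
  have hxZ : (x : ℝ) ≤ M + Z := by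
    have : (x : ℝ) ≤ B := by exact_mod_cast hx2
    linarith
  have hx0 : 0 ≤ x := by
    have : (0 : ℝ) < x := by linarith
    exact_mod_cast this.le
  have hclass : ∀ p : ℕ, p.Prime → (p : ℝ) ≤ y → (p : ℤ) ∣ x - (cc sw r y p : ℤ) := by
    intro p hp1 hp2
    have hpy : p ≤ ⌊y⌋₊ := Nat.le_floor hp2
    have hpP : (p : ℤ) ∣ (P : ℤ) := by
      rw [hP, primorial]
      have : p ∈ (Finset.range (⌊y⌋₊ + 1)).filter Nat.Prime := by
        rw [Finset.mem_filter, Finset.mem_range]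
        exact ⟨by omega, hp1⟩
      exact_mod_cast Finset.dvd_prod_of_mem _ this
    have h1 : (p : ℤ) ∣ x - b0 := hpP.trans hx3
    have h2 : (p : ℤ) ∣ (b0 : ℤ) - (cc sw r y p : ℤ) := by
      have := hb0' p hp1 hpy
      exact (Nat.modEq_iff_dvd.mp this.symm)
    have h3 := dvd_add h1 h2
    have e : x - b0 + ((b0 : ℤ) - (cc sw r y p : ℤ)) = x - (cc sw r y p : ℤ) := by ring
    rwa [e] at h3
  obtain ⟨n, rfl⟩ := Int.eq_ofNat_of_zero_le hx0
  simp only [Int.cast_natCast] at hxM hxZ hxS hclass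
  refine ⟨n, hxM, hxZ, ?_, ?_⟩
  · intro p hp hpw
    rw [← hy] at hpw ⊢
    exact hclass p hp hpw
  intro t ht q hq
  by_contra hcon
  push Not at hcon
  obtain ⟨a, b⟩ := t
  obtain ⟨g1, g2, g3, g4⟩ := hT _ ht
  simp only at g1 g2 g3 g4 hcon
  rw [← hL] at g2 g3
  -- the shift
  obtain ⟨h, hh⟩ : ∃ h : ℤ, h = (q : ℤ) - (a * (n : ℤ) ^ 2 + b * n) := ⟨_, rfl⟩
  have hhK : |(h : ℝ)| ≤ K := by rw [hh]; push_cast; exact hcon
  have hhR' : |h| ≤ (R : ℤ) := by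
    have h1 : (h.natAbs : ℝ) ≤ K := by
      rw [Nat.cast_natAbs]
      push_cast
      exact hhK
    have h2 : h.natAbs ≤ R := by rw [hR]; exact Nat.le_floor h1
    rw [Int.abs_eq_natAbs]
    exact_mod_cast h2
  have hhR2 : |(h : ℝ)| ≤ R := by exact_mod_cast hhR'
  have hhL : |(h : ℝ)| ≤ L ^ 2 := hhR2.trans hRL2
  have hqe : (q : ℤ) = a * (n : ℤ) ^ 2 + b * n + h := by rw [hh]; ring
  have hnZ : Z < n := by linarith
  have hnbig : 1000 * L ^ 4 < (n : ℝ) := by linarith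
  have hbL : |(b : ℝ)| ≤ L := g3.trans hα
  have haL : (a : ℝ) ≤ L := g2.trans hα
  have hL2 : L ≤ L ^ 2 := le_self_pow₀ (by linarith) (by norm_num)
  have hL24 : L ^ 2 ≤ L ^ 4 := pow_le_pow_right₀ (by linarith) (by norm_num)
  -- the size of `q`
  have hqbig : Z / 2 < (q : ℝ) := by
    have h1 : (q : ℝ) = (a : ℝ) * (n : ℝ) ^ 2 + b * n + h := by exact_mod_cast hqe
    have h2 := (abs_le.mp hhL).1
    have h3 := (abs_le.mp hbL).1
    rcases eq_or_lt_of_le g1 with h4 | h4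
    · have h5 := g4 h4.symm
      have h6 : (1 : ℝ) ≤ b := by exact_mod_cast h5
      rw [h1, ← h4]
      push_cast
      nlinarith
    · have h6 : (1 : ℝ) ≤ a := by exact_mod_cast h4
      rw [h1]
      have h7 : (n : ℝ) ^ 2 ≤ a * (n : ℝ) ^ 2 := by nlinarith [sq_nonneg (n : ℝ)]
      have h8 : (1000 * L ^ 4) * n ≤ (n : ℝ) ^ 2 := by nlinarith
      have h9 : -(L ^ 4 * n) ≤ (b : ℝ) * n := by
        have : -(L ^ 4) ≤ (b : ℝ) := by linarith
        have hn0 : (0 : ℝ) ≤ n := Nat.cast_nonneg n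
        nlinarith
      have h10 : (n : ℝ) ≤ L ^ 4 * n := by
        have hn0 : (0 : ℝ) ≤ n := Nat.cast_nonneg n
        nlinarith
      nlinarith
  have hprime : ∀ p : ℕ, p.Prime → (p : ℝ) ≤ Z / 4 → ¬ (p : ℤ) ∣ (q : ℤ) := by
    intro p hp hpZ hd
    have h1 : p ∣ q := by exact_mod_cast hd
    have h2 : p = q := (Nat.prime_dvd_prime_iff_eq hp hq).1 h1
    rw [h2] at hpZ
    linarith
  have hqz : Prime (q : ℤ) := Nat.prime_iff_prime_int.1 hq
  -- small prime factors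
  by_cases hsm : h ∈ W (a, b)
  · by_cases hsq : a ≠ 0 → ¬ IsSquare (disc (a, b, h))
    · by_cases hgcd : ∀ d : ℤ, d ∣ a → d ∣ b → d ∣ h → IsUnit d
      · have hmem : (a, b, h) ∈ S := (hmemS _).2 ⟨ht, hsm, hgcd, hsq⟩
        obtain ⟨p, hp1, hp2, hp3, hp4⟩ := hxS _ hmem
        apply hprime p hp1 (by linarith)
        rw [hqe]
        exact hp4
      · push Not at hgcd
        obtain ⟨d, hd1, hd2, hd3, hd4⟩ := hgcd
        have hdq : d ∣ (q : ℤ) := by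
          rw [hqe]
          exact dvd_add (dvd_add (Dvd.dvd.mul_right hd1 _) (Dvd.dvd.mul_right hd2 _)) hd3
        have hassoc : (q : ℤ) ∣ d := by
          rcases (hqz.irreducible.dvd_iff.1 hdq) with h5 | h5
          · exact absurd h5 hd4
          · exact h5.dvd
        -- then `q` divides `a` and `b`
        have hqa := hassoc.trans hd1
        have hqb := hassoc.trans hd2
        have h6 : ∀ u : ℤ, u ≠ 0 → |(u : ℝ)| ≤ L → ¬ (q : ℤ) ∣ u := by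
          intro u hu huL hdu
          have h7 := Int.le_of_dvd (abs_pos.2 hu) ((dvd_abs _ _).2 hdu)
          have h8 : (q : ℝ) ≤ |(u : ℝ)| := by exact_mod_cast h7
          linarith
        rcases eq_or_lt_of_le g1 with h4 | h4
        · exact h6 b (g4 h4.symm).ne' hbL hqb
        · exact h6 a h4.ne' (by rw [abs_of_nonneg (by exact_mod_cast g1)]; exact haL) hqa
    · push Not at hsq
      obtain ⟨ha, t₀, ht₀⟩ := hsq
      have ha0 : 0 < a := lt_of_le_of_ne g1 (Ne.symm ha)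
      exact prime_square_case b1 ha0 haL hbL hhL ht₀ (x := n) (by exact_mod_cast hnbig) hqe hqz
  · rw [hW] at hsm
    simp only at hsm
    rw [Finset.mem_filter, Finset.mem_Icc, not_and] at hsm
    have h1 := hsm (abs_le.mp hhR')
    push Not at h1
    obtain ⟨p, hp1, hp2, hp3⟩ := h1
    apply hprime p hp1 (by linarith)
    have h3 := hclass p hp1 hp2
    have h4 := dvd_add (Dvd.dvd.mul_right h3 (a * ((n : ℤ) + (cc sw r y p : ℤ)) + b)) hp3
    have e : ((n : ℤ) - (cc sw r y p : ℤ)) * (a * ((n : ℤ) + (cc sw r y p : ℤ)) + b) +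
        (a * (cc sw r y p : ℤ) ^ 2 + b * (cc sw r y p : ℤ) + h) = (q : ℤ) := by
      rw [hqe]; ring
    rwa [e] at h4

end Pool.Agent.K6.H26.PT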