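import Pool.Agent.K6.H26.PT.Unif
import Pool.Agent.K6.H83.MC.Pow

set_option autoImplicit false

/-! # Patterns in short intervals, for the Cantor construction -/

namespace Pool.Agent.K6.H26.PT

open Filter
open Pool.Agent.H256R2.SC (ff)

theorem ev_logs (K : ℝ) : ∀ᶠ x : ℝ in atTop, K ≤ Real.log x ∧ K ≤ Real.log (Real.log x) ∧
    K ≤ Real.log (Real.log (Real.log x)) ∧ K ≤ Real.log (Real.log (Real.log (Real.log x))) := by
  have t1 := Real.tendsto_log_atTop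
  have t2 := t1.comp t1
  have t3 := t1.comp t2
  have t4 := t1.comp t3
  filter_upwards [t1.eventually_ge_atTop K, t2.eventually_ge_atTop K, t3.eventually_ge_atTop K,
    t4.eventually_ge_atTop K] with x h1 h2 h3 h4
  exact ⟨h1, h2, h3, h4⟩

/-- the lengths at `N` and at `Y`, `N^κ ≤ Y ≤ N` -/
theorem compare_ff (κ : ℝ) (h0 : 0 < κ) : ∀ᶠ N : ℝ in atTop, ∀ Y : ℝ, N ^ κ ≤ Y → Y ≤ N →
    κ / 8 * ff N ≤ ff Y := by
  filter_upwards [ev_logs (max 2 (-(2 * Real.log κ))), eventually_gt_atTop (1 : ℝ)] with N hN hN1 Y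
    hY1 hY2
  have M1 : (2 : ℝ) ≤ max 2 (-(2 * Real.log κ)) := le_max_left _ _
  have M2 : -(2 * Real.log κ) ≤ max 2 (-(2 * Real.log κ)) := le_max_right _ _
  obtain ⟨h1, h2, h3, h4⟩ := hN
  have hN0 : 0 < N := by linarith
  have hY0 : 0 < Y := lt_of_lt_of_le (by positivity) hY1
  have l2 : Real.log 2 ≤ 1 := by
    have := Real.log_two_lt_d9; linarith
  unfold ff
  set a1 := Real.log N with ha1
  set a2 := Real.log a1 with ha2
  set a3 := Real.log a2 with ha3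
  set a4 := Real.log a3 with ha4
  set b1 := Real.log Y with hb1
  set b2 := Real.log b1 with hb2
  set b3 := Real.log b2 with hb3
  set b4 := Real.log b3 with hb4
  have p1 : 0 < a1 := by linarith
  have p2 : 0 < a2 := by linarith
  have p3 : 0 < a3 := by linarith
  have p4 : 0 < a4 := by linarith
  have w1 : κ * a1 ≤ b1 := by
    have := Real.log_le_log (by positivity) hY1
    rwa [Real.log_rpow hN0] at this
  have q1 : 0 < b1 := lt_of_lt_of_le (by positivity) w1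
  have w2 : a2 / 2 ≤ b2 := by
    have := Real.log_le_log (by positivity) w1
    rw [Real.log_mul h0.ne' p1.ne'] at this
    linarith
  have q2 : 0 < b2 := by linarith
  have w3 : a3 / 2 ≤ b3 := by
    have := Real.log_le_log (by positivity) w2
    rw [Real.log_div p2.ne' (by norm_num)] at this
    linarith
  have q3 : 0 < b3 := by linarith
  have w4 : a4 / 2 ≤ b4 := by
    have := Real.log_le_log (by positivity) w3
    rw [Real.log_div p3.ne' (by norm_num)] at this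
    linarith
  have q4 : 0 < b4 := by linarith
  have u1 : b1 ≤ a1 := Real.log_le_log hY0 hY2
  have u2 : b2 ≤ a2 := Real.log_le_log q1 u1
  have u3 : b3 ≤ a3 := Real.log_le_log q2 u2
  calc κ / 8 * (a1 * a2 ^ 2 * a4 / a3 ^ 2) = (κ * a1) * (a2 / 2) ^ 2 * (a4 / 2) / a3 ^ 2 := by
          ring
      _ ≤ b1 * b2 ^ 2 * b4 / b3 ^ 2 := by gcongr

/-- `ff Z / log Z` tends to infinity -/
theorem ev_ff (R : ℝ) : ∀ᶠ Z : ℝ in atTop, R * Real.log Z ≤ ff Z := by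
  have h1 : ∀ᶠ u : ℝ in atTop, (Real.log u) ^ 2 ≤ u := by
    have h := (Real.isLittleO_pow_log_id_atTop (n := 2)).def one_pos
    filter_upwards [h, eventually_ge_atTop (1:ℝ)] with u hu hu1
    rw [Real.norm_eq_abs, Real.norm_eq_abs, id, abs_of_nonneg (sq_nonneg _),
      abs_of_nonneg (by linarith)] at hu
    linarith
  have h2 := (Real.tendsto_log_atTop.comp Real.tendsto_log_atTop).eventually h1
  filter_upwards [ev_logs (max R 1), h2] with Z hZ h3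
  obtain ⟨a1, a2, a3, a4⟩ := hZ
  have hR : R ≤ max R 1 := le_max_left _ _
  have h1' : 1 ≤ max R 1 := le_max_right _ _
  simp only [Function.comp] at h3
  unfold ff
  obtain ⟨u, hu⟩ : ∃ u : ℝ, u = Real.log (Real.log Z) := ⟨_, rfl⟩
  rw [← hu] at h3 a2 a3 a4 ⊢
  have hl : 0 < Real.log Z := by linarith
  have hlu : 0 < Real.log u := by linarith
  rw [le_div_iff₀ (by positivity)]
  have h4 : R * Real.log Z * (Real.log u) ^ 2 ≤ u * Real.log Z * u := by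
    have h5 : R * Real.log Z ≤ u * Real.log Z := mul_le_mul_of_nonneg_right (by linarith) hl.le
    have h6 : R * Real.log Z * (Real.log u) ^ 2 ≤ u * Real.log Z * (Real.log u) ^ 2 :=
      mul_le_mul_of_nonneg_right h5 (sq_nonneg _)
    have h7 : u * Real.log Z * (Real.log u) ^ 2 ≤ u * Real.log Z * u :=
      mul_le_mul_of_nonneg_left h3 (by have : 0 ≤ u := by linarith
                                       positivity)
    linarith
  have h5 : u * Real.log Z * u ≤ Real.log Z * u ^ 2 * Real.log (Real.log u) := by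
    have h6 : u * Real.log Z * u = Real.log Z * u ^ 2 := by ring
    rw [h6]
    exact le_mul_of_one_le_right (by positivity) (by linarith)
  linarith

/-- the pattern of `m` at `N`, and no prime near the values of the polynomials -/
def Pat (D J A B : ℕ) (ε c : ℝ) (m N : ℕ) : Prop :=
  N ≡ m [MOD D] ∧ (∀ j : ℕ, j ≤ J → |rho (N + j) - rho (m + j)| < ε) ∧
    (Real.log N ≤ c * ff N / (A * B) → ∀ a b d : ℤ, 0 ≤ a → a ≤ A → |b| ≤ B →
      |(d : ℝ)| ≤ c * ff N / (A * B) → (a = 0 → 0 < b) →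
      ∀ q : ℕ, q.Prime → c * ff N / (A * B) < |(q : ℝ) - (a * (N : ℝ) ^ 2 + b * N + d)|)

/-- every short interval contains a short interval of good points -/
theorem pat_short (D J : ℕ) (hD : 1 ≤ D) (ε : ℝ) (hε : 0 < ε) (θ : ℝ) (h0 : 0 < θ)
    (h1 : θ ≤ 1) : ∃ c : ℝ, 0 < c ∧ ∃ X₀ : ℝ, ∀ m A B : ℕ, 1 ≤ m → 1 ≤ A → 1 ≤ B →
    ∀ x : ℝ, X₀ ≤ x → ∃ y, x ≤ y ∧ y ≤ x + x ^ θ ∧
      ∀ t, y ≤ t → t ≤ y + 1 / 2 → Pat D J A B ε c m ⌊t⌋₊ := by
  obtain ⟨c, hc, Y₀, hb⟩ := good_uniform D J hD ε (4 / θ) hε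
  obtain ⟨Y₁, hY₁⟩ := eventually_atTop.1 ((ev_ff (1 / c)).and (ev_logs 1))
  have e1 : ∀ᶠ x : ℝ in atTop, max (max (2 * Y₀) (2 * Y₁)) 4 ≤ x ^ θ :=
    (tendsto_rpow_atTop h0).eventually_ge_atTop _
  have e2 := eventually_atTop.1 (compare_ff (θ / 4) (by positivity))
  obtain ⟨N₀, hN₀⟩ := e2
  have e3 : ∀ᶠ x : ℝ in atTop, 2 * (3 : ℝ) ^ (θ / 4) ≤ x ^ (3 * θ / 4) :=
    (tendsto_rpow_atTop (by positivity)).eventually_ge_atTop _
  have e4 : ∀ᶠ x : ℝ in atTop, 2 ≤ x ^ (θ / 2) :=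
    (tendsto_rpow_atTop (by positivity)).eventually_ge_atTop _
  obtain ⟨X₀, hX⟩ := eventually_atTop.1 ((e1.and e3).and (((eventually_ge_atTop N₀).and e4).and
    ((eventually_ge_atTop (3 : ℝ)).and (ev_logs 1))))
  refine ⟨c * (θ / 4 / 8), by positivity, X₀, fun m A B hm hA hB x hx => ?_⟩
  obtain ⟨⟨f1, f5⟩, ⟨f2, f6⟩, f3, f4⟩ := hX x hx
  have hA1 : (1 : ℝ) ≤ A := by exact_mod_cast hA
  have hB1 : (1 : ℝ) ≤ B := by exact_mod_cast hB
  have hAB : (0 : ℝ) < A * B := by positivity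
  have hx0 : 0 < x := by linarith
  have hY : Y₀ ≤ x ^ θ / 2 := by
    have := ((le_max_left _ _).trans (le_max_left _ _)).trans f1; linarith
  have hY' : Y₁ ≤ x ^ θ / 2 := by
    have := ((le_max_right _ _).trans (le_max_left _ _)).trans f1; linarith
  obtain ⟨k5, k6, _, _, _⟩ := hY₁ _ hY'
  have h4 : 4 ≤ x ^ θ := (le_max_right _ _).trans f1
  have hxx : x ^ θ ≤ x := by
    calc x ^ θ ≤ x ^ (1 : ℝ) := Real.rpow_le_rpow_of_exponent_le (by linarith) h1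
      _ = x := Real.rpow_one x
  have hM : x ^ θ / 2 ≤ (⌈x⌉₊ : ℝ) := by have := Nat.le_ceil x; linarith
  have g1 : (⌈x⌉₊ : ℝ) < x + 1 := Nat.ceil_lt_add_one hx0.le
  have g2 : x ≤ (⌈x⌉₊ : ℝ) := Nat.le_ceil x
  have hMα : (⌈x⌉₊ : ℝ) ≤ (x ^ θ / 2) ^ (4 / θ) := by
    have h5 : x ^ (θ / 2) ≤ x ^ θ / 2 := by
      have h6 : x ^ θ = x ^ (θ / 2) * x ^ (θ / 2) := by
        rw [← Real.rpow_add hx0]; ring_nf
      have h7 : 0 < x ^ (θ / 2) := Real.rpow_pos_of_pos hx0 _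
      nlinarith
    have h6 : (x ^ (θ / 2)) ^ (4 / θ) = x ^ (2 : ℝ) := by
      rw [← Real.rpow_mul hx0.le]
      congr 1
      field_simp
      norm_num
    have h7 : (x ^ (θ / 2)) ^ (4 / θ) ≤ (x ^ θ / 2) ^ (4 / θ) :=
      Real.rpow_le_rpow (by positivity) h5 (by positivity)
    rw [h6] at h7
    have h8 : x ^ (2 : ℝ) = x ^ 2 := by rw [← Real.rpow_natCast]; norm_num
    rw [h8] at h7
    nlinarith
  -- the facts for any `n` found in the interval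
  have hfac : ∀ n : ℕ, (⌈x⌉₊ : ℝ) < n → (n : ℝ) ≤ (⌈x⌉₊ : ℝ) + x ^ θ / 2 →
      c * (θ / 4 / 8) * ff n / (A * B) ≤ c * ff (x ^ θ / 2) / (A * B) ∧
        Real.log (x ^ θ / 2) ≤ Real.log n ∧ x ≤ (n : ℝ) ∧ (n : ℝ) ≤ x + x ^ θ ∧
        ∀ t : ℝ, (n : ℝ) ≤ t → t ≤ (n : ℝ) + 1 / 2 → ⌊t⌋₊ = n := by
    intro n n1 n2
    have hn3 : (n : ℝ) ≤ 3 * x := by linarith
    have hnx : x ≤ (n : ℝ) := by linarith
    have hκ : (n : ℝ) ^ (θ / 4) ≤ x ^ θ / 2 := by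
      calc (n : ℝ) ^ (θ / 4) ≤ (3 * x) ^ (θ / 4) := Real.rpow_le_rpow (by linarith) hn3 (by positivity)
        _ = 3 ^ (θ / 4) * x ^ (θ / 4) := Real.mul_rpow (by norm_num) hx0.le
        _ ≤ (x ^ (3 * θ / 4) / 2) * x ^ (θ / 4) := by
          apply mul_le_mul_of_nonneg_right _ (by positivity)
          linarith
        _ = x ^ θ / 2 := by
          rw [div_mul_eq_mul_div, ← Real.rpow_add hx0]
          ring_nf
    have k1 := hN₀ n (f2.trans hnx) (x ^ θ / 2) hκ (by linarith)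
    refine ⟨?_, Real.log_le_log (by linarith) (by linarith), hnx, by linarith, fun t ht1 ht2 => ?_⟩
    · apply div_le_div_of_nonneg_right _ hAB.le
      calc c * (θ / 4 / 8) * ff n = c * (θ / 4 / 8 * ff n) := by ring
        _ ≤ c * ff (x ^ θ / 2) := mul_le_mul_of_nonneg_left k1 hc.le
    · rw [Nat.floor_eq_iff (by linarith)]
      exact ⟨ht1, by linarith⟩
  by_cases hcase : Real.log (x ^ θ / 2) ≤ c * ff (x ^ θ / 2) / (A * B)
  · obtain ⟨n, n1, n2, n3, n4, n5, _⟩ := hb m hm (x ^ θ / 2) hY ⌈x⌉₊ hM hMα A B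
      (c * ff (x ^ θ / 2) / (A * B)) hA hB hcase (by rw [mul_div_cancel₀ _ hAB.ne'])
    obtain ⟨m1, m2, m3, m4, m5⟩ := hfac n (by exact_mod_cast n1) n2
    refine ⟨n, m3, m4, fun t ht1 ht2 => ?_⟩
    rw [m5 t ht1 ht2]
    refine ⟨n3, n4, fun _ a b d ha1 ha2 hb1 hd hab q hq => ?_⟩
    exact lt_of_le_of_lt m1 (n5 a b d ha1 ha2 hb1 hab (hd.trans m1) q hq)
  · obtain ⟨n, n1, n2, n3, n4, _, _⟩ := hb m hm (x ^ θ / 2) hY ⌈x⌉₊ hM hMα 1 1
      (c * ff (x ^ θ / 2)) le_rfl le_rfl (by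
        have h5 : c * (1 / c * Real.log (x ^ θ / 2)) ≤ c * ff (x ^ θ / 2) :=
          mul_le_mul_of_nonneg_left k5 hc.le
        have h6 : c * (1 / c * Real.log (x ^ θ / 2)) = Real.log (x ^ θ / 2) := by
          field_simp
        linarith) (by push_cast; linarith)
    obtain ⟨m1, m2, m3, m4, m5⟩ := hfac n (by exact_mod_cast n1) n2
    refine ⟨n, m3, m4, fun t ht1 ht2 => ?_⟩
    rw [m5 t ht1 ht2]
    refine ⟨n3, n4, fun hl => ?_⟩
    exfalso
    linarith [not_le.1 hcase]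

theorem pat_mills (D J : ℕ) (hD : 1 ≤ D) (ε : ℝ) (hε : 0 < ε) (lam s : ℝ) (hlam : 1 < lam)
    (hs : s < 1) : ∃ c : ℝ, 0 < c ∧ ∀ m A B : ℕ → ℕ, (∀ k, 1 ≤ m k) → (∀ k, 1 ≤ A k) → (∀ k, 1 ≤ B k) →
    ∀ v n : ℕ → ℝ, 0 < n 0 → Monotone n → (∀ k, 0 < v k) → ∀ a b : ℝ, 0 ≤ a → a < b →
    (∀ t, a < t → t < b → 1 < v 0 * t ^ n 0) →
    (∀ k t, a < t → t < b → (v k * t ^ n k) ^ lam ≤ v (k + 1) * t ^ n (k + 1)) →
    ENNReal.ofReal s ≤ dimH {t : ℝ | a < t ∧ t < b ∧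
      ∃ k₀, ∀ k, k₀ ≤ k → Pat D J (A k) (B k) ε c (m k) ⌊v k * t ^ n k⌋₊} := by
  have hl0 : 0 < lam := by linarith
  have hδ0 : 0 < 1 - 1 / lam := by
    have : 1 / lam < 1 := by rw [div_lt_one hl0]; exact hlam
    linarith
  set θ := min 1 ((1 - 1 / lam) * (1 - s) / 2) with hθ
  have hD' : 0 < (1 - 1 / lam) * (1 - s) := mul_pos hδ0 (by linarith)
  have hθ0 : 0 < θ := lt_min one_pos (by linarith)
  have hθ1 : θ ≤ 1 := min_le_left _ _
  have hθ2 : θ < (1 - 1 / lam) * (1 - s) := lt_of_le_of_lt (min_le_right _ _) (by linarith)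
  obtain ⟨c, hc, X₀, hX⟩ := pat_short D J hD ε hε θ hθ0 hθ1
  exact ⟨c, hc, fun m A B hm hA hB v n hn0 hn hv a b ha hab hone hgrow =>
    Pool.Agent.K6.H83.MC.mills_pow hlam ha hab hn0 hn hv hone hgrow s θ hs hθ0.le hθ2
      (fun k t => Pat D J (A k) (B k) ε c (m k) ⌊t⌋₊) X₀
      (fun k => hX (m k) (A k) (B k) (hm k) (hA k) (hB k))⟩

end Pool.Agent.K6.H26.PT
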