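import Mathlib

set_option autoImplicit false

/-! # Totients and prime divisors above `t` -/

namespace Pool.Agent.K6.H26.PT

open Finset

/-- `φ(n) / n` -/
noncomputable def rho (n : ℕ) : ℝ := (Nat.totient n : ℝ) / n

/-- the sum of `1 / p` over the primes `p > t` dividing `n` -/
noncomputable def tail (t n : ℕ) : ℝ := ∑ p ∈ n.primeFactors.filter (fun p => t < p), (1 : ℝ) / p

theorem tail_nonneg (t n : ℕ) : 0 ≤ tail t n := by
  unfold tail
  exact Finset.sum_nonneg (fun _ _ => by positivity)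

theorem rho_eq (n : ℕ) (hn : 0 < n) : rho n = ∏ p ∈ n.primeFactors, (1 - (1 : ℝ) / p) := by
  have h2 : (Nat.totient n : ℝ) = n * ∏ p ∈ n.primeFactors, (1 - (p : ℝ)⁻¹) := by
    have := Nat.totient_eq_mul_prod_factors n
    have h3 : ((Nat.totient n : ℚ) : ℝ) = (((n : ℚ) * ∏ p ∈ n.primeFactors,
      (1 - (p : ℚ)⁻¹) : ℚ) : ℝ) := by rw [this]
    push_cast at h3
    exact h3
  have hn' : (n : ℝ) ≠ 0 := by exact_mod_cast hn.ne'
  unfold rho
  rw [h2, mul_div_cancel_left₀ _ hn']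
  simp only [one_div]

theorem one_sub_sum_le {s : Finset ℕ} {f : ℕ → ℝ} (h0 : ∀ i ∈ s, 0 ≤ f i) (h1 : ∀ i ∈ s, f i ≤ 1) :
    1 - ∑ i ∈ s, f i ≤ ∏ i ∈ s, (1 - f i) ∧ 0 ≤ ∏ i ∈ s, (1 - f i) ∧ ∏ i ∈ s, (1 - f i) ≤ 1 := by
  classical
  induction s using Finset.induction_on with
  | empty => simp
  | insert a s ha ih =>
    obtain ⟨i1, i2, i3⟩ := ih (fun i hi => h0 i (mem_insert_of_mem hi))
      (fun i hi => h1 i (mem_insert_of_mem hi))
    have a0 := h0 a (mem_insert_self _ _)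
    have a1 := h1 a (mem_insert_self _ _)
    rw [Finset.sum_insert ha, Finset.prod_insert ha]
    refine ⟨?_, mul_nonneg (by linarith) i2, ?_⟩
    · nlinarith
    · nlinarith

theorem rho_close (t n m : ℕ) (hn : 0 < n) (hm : 0 < m)
    (h : ∀ p : ℕ, p.Prime → p ≤ t → (p ∣ n ↔ p ∣ m)) (hmt : ∀ p : ℕ, p.Prime → p ∣ m → p ≤ t) :
    |rho n - rho m| ≤ tail t n := by
  have hsplit : n.primeFactors = m.primeFactors ∪ n.primeFactors.filter (fun p => t < p) := by
    ext p
    rw [mem_union, mem_filter, Nat.mem_primeFactors, Nat.mem_primeFactors]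
    constructor
    · rintro ⟨h1, h2, h3⟩
      by_cases hpt : p ≤ t
      · left
        exact ⟨h1, (h p h1 hpt).1 h2, hm.ne'⟩
      · right
        exact ⟨⟨h1, h2, h3⟩, not_le.1 hpt⟩
    · rintro (⟨h1, h2, h3⟩ | ⟨h1, h2⟩)
      · exact ⟨h1, (h p h1 (hmt p h1 h2)).2 h2, hn.ne'⟩
      · exact h1
  have hdisj : Disjoint m.primeFactors (n.primeFactors.filter (fun p => t < p)) := by
    rw [Finset.disjoint_left]
    intro p hp1 hp2
    rw [Nat.mem_primeFactors] at hp1
    rw [mem_filter] at hp2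
    have := hmt p hp1.1 hp1.2.1
    omega
  have hpr : ∀ p ∈ n.primeFactors.filter (fun p => t < p), (0 : ℝ) ≤ 1 / p ∧ (1 : ℝ) / p ≤ 1 := by
    intro p hp
    rw [mem_filter, Nat.mem_primeFactors] at hp
    have h1 : (1 : ℝ) ≤ p := by exact_mod_cast hp.1.1.one_lt.le
    refine ⟨by positivity, ?_⟩
    rw [div_le_one (by linarith)]
    exact h1
  have hpr' : ∀ p ∈ m.primeFactors, (0 : ℝ) ≤ 1 / p ∧ (1 : ℝ) / p ≤ 1 := by
    intro p hp
    rw [Nat.mem_primeFactors] at hp
    have h1 : (1 : ℝ) ≤ p := by exact_mod_cast hp.1.one_lt.le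
    refine ⟨by positivity, ?_⟩
    rw [div_le_one (by linarith)]
    exact h1
  obtain ⟨e1, e2, e3⟩ := one_sub_sum_le (fun p hp => (hpr p hp).1) (fun p hp => (hpr p hp).2)
  obtain ⟨_, f2, f3⟩ := one_sub_sum_le (fun p hp => (hpr' p hp).1) (fun p hp => (hpr' p hp).2)
  have hrn : rho n = rho m * ∏ p ∈ n.primeFactors.filter (fun p => t < p), (1 - (1 : ℝ) / p) := by
    rw [rho_eq n hn, rho_eq m hm]
    conv_lhs => rw [hsplit]
    rw [Finset.prod_union hdisj]
  rw [← rho_eq m hm] at f2 f3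
  have ht : tail t n = ∑ p ∈ n.primeFactors.filter (fun p => t < p), (1 : ℝ) / p := rfl
  rw [hrn, abs_sub_comm, ht, abs_le]
  constructor
  · nlinarith [tail_nonneg t n]
  · nlinarith [tail_nonneg t n]

theorem tail_le (t n N : ℕ) (y : ℝ) (hn : 0 < n) (hN : 0 < N) (hy : 1 < y)
    (h : ∀ p : ℕ, p.Prime → t < p → (p : ℝ) ≤ y → p ∣ n → p ∣ N) :
    tail t n ≤ tail t N + Real.log n / (y * Real.log y) := by
  classical
  have hly : 0 < Real.log y := Real.log_pos hy
  have hy0 : 0 < y := by linarith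
  have h1 : tail t n = ∑ p ∈ (n.primeFactors.filter (fun p => t < p)).filter (fun p : ℕ => (p : ℝ) ≤ y),
        (1 : ℝ) / p +
      ∑ p ∈ (n.primeFactors.filter (fun p => t < p)).filter (fun p : ℕ => ¬ (p : ℝ) ≤ y), (1 : ℝ) / p := by
    unfold tail
    rw [Finset.sum_filter_add_sum_filter_not]
  rw [h1]
  apply add_le_add
  · unfold tail
    apply Finset.sum_le_sum_of_subset_of_nonneg
    · intro p hp
      rw [mem_filter, mem_filter, Nat.mem_primeFactors] at hp
      rw [mem_filter, Nat.mem_primeFactors]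
      exact ⟨⟨hp.1.1.1, h p hp.1.1.1 hp.1.2 hp.2 hp.1.1.2.1, hN.ne'⟩, hp.1.2⟩
    · intro _ _ _
      positivity
  · obtain ⟨S, hS⟩ : ∃ S : Finset ℕ, S = (n.primeFactors.filter (fun p => t < p)).filter
      (fun p : ℕ => ¬ (p : ℝ) ≤ y) := ⟨_, rfl⟩
    rw [← hS]
    have hSn : S ⊆ n.primeFactors := by
      rw [hS]
      exact (Finset.filter_subset _ _).trans (Finset.filter_subset _ _)
    have hSy : ∀ p ∈ S, y < (p : ℝ) := by
      intro p hp
      rw [hS, mem_filter] at hp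
      exact not_le.1 hp.2
    have h2 : ∑ p ∈ S, (1 : ℝ) / p ≤ ∑ p ∈ S, Real.log p / (y * Real.log y) := by
      apply Finset.sum_le_sum
      intro p hp
      have h3 := hSy p hp
      have hp0 : (0 : ℝ) < p := by linarith
      have h4 : Real.log y ≤ Real.log p := Real.log_le_log hy0 h3.le
      rw [div_le_div_iff₀ hp0 (by positivity)]
      nlinarith
    refine h2.trans ?_
    rw [← Finset.sum_div]
    apply div_le_div_of_nonneg_right _ (by positivity)
    have h5 : ∑ p ∈ S, Real.log p = Real.log ((∏ p ∈ S, p : ℕ) : ℝ) := by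
      push_cast
      rw [Real.log_prod]
      intro p hp
      have := hSy p hp
      linarith
    rw [h5]
    apply Real.log_le_log
    · have : 0 < ∏ p ∈ S, p := Finset.prod_pos (fun p hp => by
        have := hSy p hp
        have : (0 : ℝ) < p := by linarith
        exact_mod_cast this)
      exact_mod_cast this
    · have h6 : ∏ p ∈ S, p ∣ n := (Finset.prod_dvd_prod_of_subset _ _ _ hSn).trans
        (Nat.prod_primeFactors_dvd n)
      exact_mod_cast Nat.le_of_dvd hn h6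

end Pool.Agent.K6.H26.PT
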