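import Pool.Agent.H256R2.SC.G1
import Pool.Agent.K6.H26.PT.Tot

set_option autoImplicit false

/-! # A shift with few prime divisors above `t` -/

namespace Pool.Agent.K6.H26.PT

open Finset Filter
open Pool.Agent.H256R2.SC.LG (count_Ioc)

/-- the number of the `k` with `p ∣ c + Q k` -/
theorem count_k (Q p c B : ℕ) (hp : 0 < p) (hc : Nat.Coprime Q p) :
    (((Ioc B (2 * B)).filter (fun k => p ∣ c + Q * k)).card : ℝ) ≤ (B : ℝ) / p + 1 := by
  have hcop : IsCoprime (Q : ℤ) (p : ℤ) := Nat.isCoprime_iff_coprime.mpr hc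
  obtain ⟨u, v, huv⟩ := hcop
  have h1 := count_Ioc (B : ℤ) ((2 * B : ℕ) : ℤ) (by push_cast; omega) p hp (-(u * c))
  have h2 := (abs_le.1 h1).2
  have h3 : (((Ioc B (2 * B)).filter (fun k => p ∣ c + Q * k)).card : ℝ) ≤
      (((Ioc (B : ℤ) ((2 * B : ℕ) : ℤ)).filter (fun x => (p : ℤ) ∣ x - (-(u * c)))).card : ℝ) := by
    apply Nat.cast_le.2
    apply Finset.card_le_card_of_injOn (fun k : ℕ => (k : ℤ))
    · intro k hk
      rw [Finset.mem_coe, mem_filter, mem_Ioc] at hk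
      rw [Finset.mem_coe, mem_filter, mem_Ioc]
      refine ⟨⟨show (B : ℤ) < (k : ℤ) by exact_mod_cast hk.1.1,
        show (k : ℤ) ≤ ((2 * B : ℕ) : ℤ) by exact_mod_cast hk.1.2⟩, ?_⟩
      have h4 : (p : ℤ) ∣ (c : ℤ) + Q * k := by exact_mod_cast hk.2
      have h5 : (k : ℤ) - (-(u * c)) = u * ((c : ℤ) + Q * k) + p * (v * k) := by
        linear_combination (-(k : ℤ)) * huv
      show (p : ℤ) ∣ (k : ℤ) - (-(u * c))
      rw [h5]
      exact dvd_add (Dvd.dvd.mul_left h4 _) (Dvd.intro _ rfl)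
    · intro a _ b _ hab
      have hab' : (a : ℤ) = (b : ℤ) := hab
      exact_mod_cast hab'
  refine h3.trans ?_
  have h6 : (((2 * B : ℕ) : ℤ) : ℝ) - ((B : ℤ) : ℝ) = B := by push_cast; ring
  rw [h6] at h2
  linarith

theorem sum_tail (Q t c B N : ℕ) (ht : 1 ≤ t) (hc0 : 0 < c)
    (hcop : ∀ p : ℕ, p.Prime → t < p → Nat.Coprime Q p) (hN : c + Q * (2 * B) ≤ N) (htN : t ≤ N) :
    ∑ k ∈ Ioc B (2 * B), tail t (c + Q * k) ≤ (B : ℝ) / t + (1 + Real.log N) := by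
  classical
  have h1 : ∀ k ∈ Ioc B (2 * B), tail t (c + Q * k) =
      ∑ p ∈ (Ioc t N).filter Nat.Prime, (if p ∣ c + Q * k then (1 : ℝ) / p else 0) := by
    intro k hk
    rw [mem_Ioc] at hk
    rw [← Finset.sum_filter]
    unfold tail
    apply Finset.sum_congr _ (fun _ _ => rfl)
    ext p
    rw [mem_filter, mem_filter, mem_filter, mem_Ioc, Nat.mem_primeFactors]
    have hpos : 0 < c + Q * k := by omega
    have hle : c + Q * k ≤ N := by
      have : Q * k ≤ Q * (2 * B) := Nat.mul_le_mul_left _ hk.2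
      omega
    constructor
    · rintro ⟨⟨a1, a2, a3⟩, a4⟩
      exact ⟨⟨⟨a4, (Nat.le_of_dvd hpos a2).trans hle⟩, a1⟩, a2⟩
    · rintro ⟨⟨⟨a1, a2⟩, a3⟩, a4⟩
      exact ⟨⟨a3, a4, hpos.ne'⟩, a1⟩
  rw [Finset.sum_congr rfl h1, Finset.sum_comm]
  have h2 : ∀ p ∈ (Ioc t N).filter Nat.Prime,
      ∑ k ∈ Ioc B (2 * B), (if p ∣ c + Q * k then (1 : ℝ) / p else 0) ≤
        B * ((p : ℝ) ^ 2)⁻¹ + (p : ℝ)⁻¹ := by
    intro p hp
    rw [mem_filter, mem_Ioc] at hp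
    have hp0 : (0 : ℝ) < p := by exact_mod_cast hp.2.pos
    rw [← Finset.sum_filter, Finset.sum_const, nsmul_eq_mul]
    have h3 := count_k Q p c B hp.2.pos (hcop p hp.2 hp.1.1)
    have h4 : (((Ioc B (2 * B)).filter (fun k => p ∣ c + Q * k)).card : ℝ) * (1 / p) ≤
        ((B : ℝ) / p + 1) * (1 / p) := mul_le_mul_of_nonneg_right h3 (by positivity)
    refine h4.trans (le_of_eq ?_)
    field_simp
  refine (Finset.sum_le_sum h2).trans ?_
  rw [Finset.sum_add_distrib, ← Finset.mul_sum]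
  have h5 : ∑ p ∈ (Ioc t N).filter Nat.Prime, ((p : ℝ) ^ 2)⁻¹ ≤ 1 / t := by
    have h6 : ∑ p ∈ (Ioc t N).filter Nat.Prime, ((p : ℝ) ^ 2)⁻¹ ≤ ∑ p ∈ Ioc t N, ((p : ℝ) ^ 2)⁻¹ :=
      Finset.sum_le_sum_of_subset_of_nonneg (Finset.filter_subset _ _) (fun _ _ _ => by positivity)
    have h7 := sum_Ioc_inv_sq_le_sub (α := ℝ) (k := t) (n := N) (by omega) htN
    have h8 : (0 : ℝ) ≤ (N : ℝ)⁻¹ := by positivity
    rw [one_div]
    linarith
  have h9 : ∑ p ∈ (Ioc t N).filter Nat.Prime, (p : ℝ)⁻¹ ≤ 1 + Real.log N := by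
    have h10 : ∑ p ∈ (Ioc t N).filter Nat.Prime, (p : ℝ)⁻¹ ≤ ∑ p ∈ Icc 1 N, (p : ℝ)⁻¹ := by
      apply Finset.sum_le_sum_of_subset_of_nonneg
      · intro p hp
        rw [mem_filter, mem_Ioc] at hp
        rw [mem_Icc]
        omega
      · intro _ _ _
        positivity
    have h11 := harmonic_le_one_add_log N
    rw [harmonic_eq_sum_Icc] at h11
    push_cast at h11
    linarith
  have h12 : (B : ℝ) * ∑ p ∈ (Ioc t N).filter Nat.Prime, ((p : ℝ) ^ 2)⁻¹ ≤ B * (1 / t) :=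
    mul_le_mul_of_nonneg_left h5 (by positivity)
  have h13 : (B : ℝ) * (1 / t) = B / t := by ring
  linarith

theorem pick (Q t m J₀ : ℕ) (ht : 1 ≤ t) (hm : 0 < m)
    (hcop : ∀ p : ℕ, p.Prime → t < p → Nat.Coprime Q p) (δ : ℝ) (hδ : 0 < δ) :
    ∃ B₀ : ℕ, 1 ≤ B₀ ∧ ∀ B : ℕ, B₀ ≤ B → ∃ k : ℕ, B < k ∧ k ≤ 2 * B ∧
      ∀ j : ℕ, j ≤ J₀ → tail t (m + j + Q * k) ≤ ((J₀ : ℝ) + 1) / t + δ := by
  obtain ⟨e, he⟩ : ∃ e : ℝ, e = δ / (2 * ((J₀ : ℝ) + 1)) := ⟨_, rfl⟩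
  have he0 : 0 < e := by rw [he]; positivity
  obtain ⟨c, hc⟩ : ∃ c : ℕ, c = m + J₀ + t + 2 * Q := ⟨_, rfl⟩
  have h1 := (Real.isLittleO_log_id_atTop).def he0
  obtain ⟨X₀, hX₀⟩ := eventually_atTop.1 (h1.and ((eventually_ge_atTop ((1 + Real.log c) / e)).and
    (eventually_ge_atTop (1 : ℝ))))
  obtain ⟨B₀, hB₀⟩ := exists_nat_ge X₀
  refine ⟨B₀ + 1, by omega, fun B hB => ?_⟩
  obtain ⟨e1, e2, e3⟩ := hX₀ B (hB₀.trans (by exact_mod_cast (by omega : B₀ ≤ B)))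
  have hB1 : 1 ≤ B := by exact_mod_cast e3
  have hlB : 0 ≤ Real.log B := Real.log_nonneg e3
  rw [Real.norm_eq_abs, Real.norm_eq_abs, id, abs_of_nonneg hlB, abs_of_nonneg (by linarith)] at e1
  rw [div_le_iff₀ he0] at e2
  obtain ⟨N, hN⟩ : ∃ N : ℕ, N = c * B := ⟨_, rfl⟩
  have hc1 : 1 ≤ c := by omega
  have hlogN : Real.log N = Real.log c + Real.log B := by
    rw [hN]
    push_cast
    rw [Real.log_mul (by positivity) (by positivity)]
  have h2 : ∑ k ∈ Ioc B (2 * B), ∑ j ∈ range (J₀ + 1), tail t (m + j + Q * k) ≤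
      ∑ k ∈ Ioc B (2 * B), (((J₀ : ℝ) + 1) / t + δ) := by
    rw [Finset.sum_comm, Finset.sum_const, Nat.card_Ioc, nsmul_eq_mul]
    have h3 : ∀ j ∈ range (J₀ + 1), ∑ k ∈ Ioc B (2 * B), tail t (m + j + Q * k) ≤
        (B : ℝ) / t + (1 + Real.log N) := by
      intro j hj
      rw [mem_range] at hj
      apply sum_tail Q t (m + j) B N ht (by omega) hcop
      · rw [hN, hc]
        have h4 : (m + J₀ + t) * 1 ≤ (m + J₀ + t) * B := Nat.mul_le_mul_left _ hB1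
        nlinarith
      · rw [hN, hc]
        have h4 : (m + J₀ + t) * 1 ≤ (m + J₀ + t) * B := Nat.mul_le_mul_left _ hB1
        nlinarith
    refine (Finset.sum_le_sum h3).trans ?_
    rw [Finset.sum_const, Finset.card_range, nsmul_eq_mul]
    have h5 : ((2 * B - B : ℕ) : ℝ) = B := by
      have : 2 * B - B = B := by omega
      rw [this]
    rw [h5]
    push_cast
    have h6 : 1 + Real.log N ≤ 2 * (e * B) := by
      rw [hlogN]
      linarith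
    have h7 : 2 * (e * B) * ((J₀ : ℝ) + 1) = δ * B := by
      rw [he]; field_simp
    have h8 : ((J₀ : ℝ) + 1) * (1 + Real.log N) ≤ δ * B := by
      rw [← h7]
      have : (1 + Real.log N) * ((J₀ : ℝ) + 1) ≤ 2 * (e * B) * ((J₀ : ℝ) + 1) :=
        mul_le_mul_of_nonneg_right h6 (by positivity)
      linarith
    have h9 : ((J₀ : ℝ) + 1) * ((B : ℝ) / t) = B * (((J₀ : ℝ) + 1) / t) := by ring
    linarith
  obtain ⟨k, hk, hk2⟩ := Finset.exists_le_of_sum_le (s := Ioc B (2 * B)) ⟨2 * B, by rw [mem_Ioc]; omega⟩ h2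
  rw [mem_Ioc] at hk
  refine ⟨k, hk.1, hk.2, fun j hj => ?_⟩
  refine le_trans ?_ hk2
  exact Finset.single_le_sum (f := fun j => tail t (m + j + Q * k)) (fun j _ => tail_nonneg _ _)
    (Finset.mem_range.2 (by omega))

end Pool.Agent.K6.H26.PT
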