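import Pool.Agent.K6.H26.QW.BoxSw

set_option autoImplicit false

/-! # The polynomials in `x`, `n = Q x + h` -/

namespace Pool.Agent.K6.H26.PT

open Finset Filter
open Pool.Agent.H256R2.SC (ff)
open Pool.Agent.H378R2.QG (w0)
open Pool.Agent.K6.H26.QW
open scoped Classical

/-- the map from the coefficients of `a n² + b n` to those in `x`, `n = Q x + h` -/
def tmap (Q h : ℕ) (t : ℤ × ℤ) : ℤ × ℤ := (t.1 * (Q : ℤ) ^ 2, (2 * t.1 * h + t.2) * Q)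

theorem ss_tmap (Q h : ℕ) (t : ℤ × ℤ) :
    ss 1 (tmap Q h t) = Q * (t.1 * ((Q : ℤ) + 2 * h) + t.2) := by
  unfold ss tmap
  push_cast
  ring

theorem tmap_inj (Q h : ℕ) (hQ : 0 < Q) : Function.Injective (tmap Q h) := by
  intro t t' e
  unfold tmap at e
  have hQ0 : (Q : ℤ) ≠ 0 := by exact_mod_cast hQ.ne'
  have e1 := congrArg Prod.fst e
  have e2 := congrArg Prod.snd e
  simp only at e1 e2
  have f1 : t.1 = t'.1 := mul_right_cancel₀ (pow_ne_zero 2 hQ0) e1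
  have f2 := mul_right_cancel₀ hQ0 e2
  rw [f1] at f2
  have f3 : t.2 = t'.2 := by omega
  exact Prod.ext f1 f3

theorem val_bounds {A B R : ℕ} (hR : 2 * B + 1 ≤ R) {t : ℤ × ℤ} (ht : t ∈ box A B) :
    1 ≤ t.1 * (R : ℤ) + t.2 ∧ t.1 * (R : ℤ) + t.2 ≤ ((A * R + B : ℕ) : ℤ) := by
  obtain ⟨⟨h1, h2⟩, ⟨h3, h4⟩, h5⟩ := mem_box.1 ht
  have hrZ : (2 * (B : ℤ) + 1) ≤ (R : ℤ) := by exact_mod_cast hR
  constructor
  · rcases eq_or_lt_of_le h1 with h | h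
    · have := h5 h.symm
      rw [← h]
      omega
    · have : (R : ℤ) ≤ t.1 * R := le_mul_of_one_le_left (by positivity) h
      omega
  · push_cast
    have : t.1 * (R : ℤ) ≤ A * R := mul_le_mul_of_nonneg_right h2 (by positivity)
    omega

theorem tbox_sum : ∃ C : ℝ, 0 < C ∧ ∀ Q h A B : ℕ, 0 < Q → 2 * B + 1 ≤ Q + 2 * h →
    ∑ t ∈ (box A B).image (tmap Q h), GG (ss 1 t) ^ 2 ≤
      C * ((Q : ℝ) / (Nat.totient Q : ℝ)) ^ 2 * ((A * (Q + 2 * h) + B : ℕ) : ℝ) := by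
  obtain ⟨C, hC, havg⟩ := avg_ratio
  refine ⟨C, hC, fun Q h A B hQ hR => ?_⟩
  obtain ⟨R, hRe⟩ : ∃ R : ℕ, R = Q + 2 * h := ⟨_, rfl⟩
  rw [← hRe] at hR ⊢
  rw [Finset.sum_image (fun a _ b _ e => tmap_inj Q h hQ e)]
  have hRZ : (R : ℤ) = (Q : ℤ) + 2 * h := by rw [hRe]; push_cast; ring
  have hinj : Set.InjOn (fun t : ℤ × ℤ => (t.1 * (R : ℤ) + t.2).natAbs) (box A B : Set (ℤ × ℤ)) := by
    intro t ht t' ht' e
    obtain ⟨⟨h1, h2⟩, ⟨h3, h4⟩, h5⟩ := mem_box.1 (Finset.mem_coe.1 ht)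
    obtain ⟨⟨h1', h2'⟩, ⟨h3', h4'⟩, h5'⟩ := mem_box.1 (Finset.mem_coe.1 ht')
    have g := (val_bounds hR (Finset.mem_coe.1 ht)).1
    have g' := (val_bounds hR (Finset.mem_coe.1 ht')).1
    have e1 : t.1 * (R : ℤ) + t.2 = t'.1 * (R : ℤ) + t'.2 := by
      have e0 : (t.1 * (R : ℤ) + t.2).natAbs = (t'.1 * (R : ℤ) + t'.2).natAbs := e
      omega
    have hrZ : (2 * (B : ℤ) + 1) ≤ (R : ℤ) := by exact_mod_cast hR
    have e2 : t.1 = t'.1 := by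
      by_contra hne'
      rcases lt_or_gt_of_ne hne' with h | h
      · have h6 : (t.1 + 1) * (R : ℤ) ≤ t'.1 * R := mul_le_mul_of_nonneg_right (by omega) (by positivity)
        have h7 : (t.1 + 1) * (R : ℤ) = t.1 * R + R := by ring
        omega
      · have h6 : (t'.1 + 1) * (R : ℤ) ≤ t.1 * R := mul_le_mul_of_nonneg_right (by omega) (by positivity)
        have h7 : (t'.1 + 1) * (R : ℤ) = t'.1 * R + R := by ring
        omega
    have e3 : t.2 = t'.2 := by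
      rw [e2] at e1
      omega
    exact Prod.ext e2 e3
  have h1 : ∑ t ∈ box A B, GG (ss 1 (tmap Q h t)) ^ 2 ≤ ∑ t ∈ box A B,
      ((Q : ℝ) / (Nat.totient Q : ℝ)) ^ 2 * ((((t.1 * (R : ℤ) + t.2).natAbs : ℕ) : ℝ) /
        (Nat.totient ((t.1 * (R : ℤ) + t.2).natAbs) : ℝ)) ^ 2 := by
    apply Finset.sum_le_sum
    intro t ht
    have g := (val_bounds hR ht).1
    rw [ss_tmap, ← hRZ]
    have h2 := ratio_mul (m := Q) (s := t.1 * (R : ℤ) + t.2) hQ (by omega)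
    have h3 : GG ((Q : ℤ) * (t.1 * (R : ℤ) + t.2)) =
        (((Q * (t.1 * (R : ℤ) + t.2).natAbs : ℕ) : ℝ) /
          (Nat.totient (Q * (t.1 * (R : ℤ) + t.2).natAbs) : ℝ)) := by
      unfold GG
      rw [Int.natAbs_mul, Int.natAbs_natCast]
    rw [← h3] at h2
    have h4 : 0 ≤ GG ((Q : ℤ) * (t.1 * (R : ℤ) + t.2)) := by unfold GG; positivity
    have h5 := pow_le_pow_left₀ h4 h2 2
    rw [mul_pow] at h5
    exact h5
  refine h1.trans ?_
  rw [← Finset.mul_sum]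
  have h6 : ∑ t ∈ box A B, ((((t.1 * (R : ℤ) + t.2).natAbs : ℕ) : ℝ) /
        (Nat.totient ((t.1 * (R : ℤ) + t.2).natAbs) : ℝ)) ^ 2 ≤ C * ((A * R + B : ℕ) : ℝ) := by
    rw [← Finset.sum_image (s := box A B) (g := fun t : ℤ × ℤ => (t.1 * (R : ℤ) + t.2).natAbs)
      (f := fun n : ℕ => ((n : ℝ) / (Nat.totient n : ℝ)) ^ 2) hinj]
    refine le_trans ?_ (havg _)
    apply Finset.sum_le_sum_of_subset_of_nonneg
    · intro n hn'
      rw [mem_image] at hn'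
      obtain ⟨t, ht, rfl⟩ := hn'
      obtain ⟨g1, g2⟩ := val_bounds hR ht
      rw [Finset.mem_Icc]
      omega
    · intro _ _ _
      positivity
  have h7 := mul_le_mul_of_nonneg_left h6 (show 0 ≤ ((Q : ℝ) / (Nat.totient Q : ℝ)) ^ 2 by positivity)
  refine h7.trans (le_of_eq ?_)
  ring

end Pool.Agent.K6.H26.PT
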