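import Pool.Agent.K6.H26.PT.Gen
import Pool.Agent.K6.H26.PT.Pick
import Pool.Agent.K6.H26.PT.Ev
import Pool.Agent.K6.H26.PT.TBox

set_option autoImplicit false

/-! # Every pattern of totients next to record gaps -/

namespace Pool.Agent.K6.H26.PT

open Finset Filter
open Pool.Agent.H256R2.SC (ff)
open Pool.Agent.H378R2.QG (w0)
open Pool.Agent.K6.H26.QW
open scoped Classical

/-- the totients of `n + j`, `n = Q x + h` -/
theorem tot_part {m J₀ t Q l x : ℕ} {y ε α' : ℝ} (hm : 1 ≤ m) (htm : m + J₀ ≤ t)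
    (hQt : ∀ p : ℕ, p.Prime → p ≤ t → p ∣ Q) (hy : 1 < y)
    (hw : (((m + Q * l : ℕ) : ℝ) + J₀) < w0 y)
    (hcl : ∀ p : ℕ, p.Prime → (p : ℝ) ≤ y → (p : ℤ) ∣ (x : ℤ) - (cc false 1 y p : ℤ))
    (hpick : ∀ j : ℕ, j ≤ J₀ → tail t (m + j + Q * (l + 1)) ≤ ε)
    (hbig : ∀ j : ℕ, j ≤ J₀ → Real.log (((Q * x + (m + Q * l) + j : ℕ) : ℝ)) / (y * Real.log y) ≤ α') :
    ∀ j : ℕ, j ≤ J₀ → |rho (Q * x + (m + Q * l) + j) - rho (m + j)| ≤ ε + α' := by
  intro j hj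
  have e1 : Q * x + (m + Q * l) + j = Q * (x + l) + (m + j) := by ring
  have hpos : 0 < Q * x + (m + Q * l) + j := by omega
  refine (rho_close t _ (m + j) hpos (by omega) ?_ ?_).trans ?_
  · intro p hp hpt
    rw [e1]
    exact Nat.dvd_add_right (Dvd.dvd.mul_right (hQt p hp hpt) _)
  · intro p hp hpd
    exact (Nat.le_of_dvd (by omega) hpd).trans (by omega)
  · refine (tail_le t _ (m + j + Q * (l + 1)) y hpos (by omega) hy ?_).trans
      (add_le_add (hpick j hj) (hbig j hj))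
    intro p hp hpt hpy hpd
    have h1 := hcl p hp hpy
    unfold cc at h1
    by_cases hpw : (p : ℝ) ≤ w0 y
    · rw [if_pos hpw] at h1
      simp only [Bool.false_eq_true, if_false] at h1
      have h2 : (p : ℤ) ∣ ((Q * x + (m + Q * l) + j : ℕ) : ℤ) := by exact_mod_cast hpd
      have h3 : (p : ℤ) ∣ ((m + j + Q * (l + 1) : ℕ) : ℤ) := by
        have h4 := dvd_sub h2 (Dvd.dvd.mul_left h1 (Q : ℤ))
        have e : ((Q * x + (m + Q * l) + j : ℕ) : ℤ) - (Q : ℤ) * ((x : ℤ) - ((1 : ℕ) : ℤ)) =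
            ((m + j + Q * (l + 1) : ℕ) : ℤ) := by push_cast; ring
        rwa [e] at h4
      exact_mod_cast h3
    · exfalso
      rw [if_neg hpw] at h1
      simp only [Bool.false_eq_true, if_false] at h1
      have h1' : (p : ℤ) ∣ (x : ℤ) := by simpa using h1
      have h1'' : p ∣ x := by exact_mod_cast h1'
      have h2 : p ∣ m + Q * l + j := by
        have e2 : Q * x + (m + Q * l) + j = Q * x + (m + Q * l + j) := by ring
        rw [e2] at hpd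
        exact (Nat.dvd_add_right (Dvd.dvd.mul_left h1'' Q)).1 hpd
      have h3 := Nat.le_of_dvd (by omega) h2
      have h4 : (p : ℝ) ≤ ((m + Q * l : ℕ) : ℝ) + J₀ := by
        have : p ≤ m + Q * l + J₀ := by omega
        exact_mod_cast this
      linarith [not_le.1 hpw]

theorem pattern_main (D m J₀ : ℕ) (hD : 1 ≤ D) (hm : 1 ≤ m) (ε α : ℝ) (hε : 0 < ε) (hα : 1 ≤ α) :
    ∃ c : ℝ, 0 < c ∧ ∃ Z₀ : ℝ, ∀ Z : ℝ, Z₀ ≤ Z → ∀ M : ℝ, Z ≤ M → M ≤ Z ^ α →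
    ∀ (A B : ℕ) (K : ℝ), 1 ≤ A → Real.log Z ≤ K → ((A : ℝ) + 1) * ((B : ℝ) + 1) * K ≤ c * ff Z →
    ∃ n : ℕ, M < n ∧ (n : ℝ) ≤ M + Z ∧ n ≡ m [MOD D] ∧
      (∀ j : ℕ, j ≤ J₀ → |rho (n + j) - rho (m + j)| < ε) ∧
      ∀ a b d : ℤ, 0 ≤ a → a ≤ A → |b| ≤ B → (a = 0 → 0 < b) → |(d : ℝ)| ≤ K →
        ∀ q : ℕ, q.Prime → K < |(q : ℝ) - (a * (n : ℝ) ^ 2 + b * n + d)| := by
  obtain ⟨c₀, hc₀, Z₁, hmain⟩ := main_cls false
  obtain ⟨C, hC, hsumC⟩ := tbox_sum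
  -- the modulus
  obtain ⟨t, ht⟩ : ∃ t : ℕ, t = D + m + J₀ + ⌈4 * ((J₀ : ℝ) + 1) / ε⌉₊ := ⟨_, rfl⟩
  have ht1 : 1 ≤ t := by omega
  have hte : ((J₀ : ℝ) + 1) / t ≤ ε / 4 := by
    have h1 : 4 * ((J₀ : ℝ) + 1) / ε ≤ t := by
      refine (Nat.le_ceil _).trans ?_
      rw [ht]
      push_cast
      have : (0 : ℝ) ≤ D + m + J₀ := by positivity
      linarith
    have ht0 : (0 : ℝ) < t := by exact_mod_cast ht1
    rw [div_le_iff₀ hε] at h1
    rw [div_le_iff₀ ht0]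
    linarith
  obtain ⟨Q, hQ⟩ : ∃ Q : ℕ, Q = D * Nat.factorial t := ⟨_, rfl⟩
  have hQ0 : 0 < Q := by rw [hQ]; exact Nat.mul_pos hD (Nat.factorial_pos t)
  have hQt : ∀ p : ℕ, p.Prime → p ≤ t → p ∣ Q := by
    intro p hp hpt
    rw [hQ]
    exact Dvd.dvd.mul_left (Nat.dvd_factorial hp.pos hpt) _
  have hcop : ∀ p : ℕ, p.Prime → t < p → Nat.Coprime Q p := by
    intro p hp hpt
    rw [Nat.coprime_comm, hp.coprime_iff_not_dvd, hQ]
    intro hd
    rcases hp.dvd_mul.1 hd with h | h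
    · have := Nat.le_of_dvd hD h
      omega
    · have := (hp.dvd_factorial).1 h
      omega
  obtain ⟨B₀, hB₀, hpick⟩ := pick Q t m J₀ ht1 hm hcop (ε / 4) (by positivity)
  -- the constants
  obtain ⟨E, hE⟩ : ∃ E : ℝ, E = 2 * ((m : ℝ) + 3 * Q) * (B₀ + 1) + 1 := ⟨_, rfl⟩
  have hE1 : 1 ≤ E := by
    rw [hE]
    have : (0 : ℝ) ≤ 2 * ((m : ℝ) + 3 * Q) * (B₀ + 1) := by positivity
    linarith
  have hQ1 : (1 : ℝ) ≤ Q := by exact_mod_cast hQ0
  obtain ⟨g, hg⟩ : ∃ g : ℝ, g = (Q : ℝ) / (Nat.totient Q : ℝ) := ⟨_, rfl⟩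
  have hg0 : 0 < g := by
    rw [hg]
    have : (0 : ℝ) < (Nat.totient Q : ℝ) := by exact_mod_cast Nat.totient_pos.2 hQ0
    positivity
  obtain ⟨F, hF⟩ : ∃ F : ℝ, F = (Q : ℝ) ^ 2 * E + J₀ := ⟨_, rfl⟩
  have hF1 : (Q : ℝ) ^ 2 * E ≤ F := by rw [hF]; linarith [Nat.cast_nonneg (α := ℝ) J₀]
  have hEF : E ≤ F := by
    refine le_trans ?_ hF1
    have : (1 : ℝ) ≤ (Q : ℝ) ^ 2 := one_le_pow₀ hQ1
    nlinarith
  have hQEF : (Q : ℝ) * E ≤ F := by
    refine le_trans ?_ hF1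
    have : (Q : ℝ) ≤ (Q : ℝ) ^ 2 := le_self_pow₀ hQ1 (by norm_num)
    nlinarith
  have hQF : (Q : ℝ) ≤ F := by nlinarith
  have hQ2F : (Q : ℝ) ^ 2 ≤ F := by
    have : (0 : ℝ) ≤ (Q : ℝ) ^ 2 := by positivity
    nlinarith
  have hJF : (J₀ : ℝ) ≤ F := by
    rw [hF]
    have : (0 : ℝ) ≤ (Q : ℝ) ^ 2 * E := by positivity
    linarith
  have hF0 : 0 < F := by linarith
  obtain ⟨c, hc⟩ : ∃ c : ℝ, c = c₀ / (48 * C * g ^ 2 * E) := ⟨_, rfl⟩
  have hc0 : 0 < c := by rw [hc]; positivity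
  obtain ⟨Z₂, hev⟩ := ev_size2 c hc0
  obtain ⟨Z₃, hsqrt⟩ := ev_sqrt
  obtain ⟨Z₄, hevw⟩ := ev_w F c hF0 hc0
  obtain ⟨Z₅, hbig⟩ := ev_big F α (ε / 4) hF0 hα (by positivity)
  refine ⟨c, hc0, max (max Z₁ 1 ^ 2) (max (max Z₂ Z₃) (max Z₄ Z₅)),
    fun Z hZ M hM hMα A B K hA hK hABK => ?_⟩
  obtain ⟨e1, e2, e3, e4, e5, e6, e7⟩ := hev Z
    (((le_max_left _ _).trans ((le_max_left _ _).trans (le_max_right _ _))).trans hZ)
  obtain ⟨s1, s2⟩ := hsqrt Z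
    (((le_max_right _ _).trans ((le_max_left _ _).trans (le_max_right _ _))).trans hZ)
  have hevw' := hevw Z
    (((le_max_left _ _).trans ((le_max_right _ _).trans (le_max_right _ _))).trans hZ)
    (((A : ℝ) + 1) * ((B : ℝ) + 1)) K (by positivity) hK hABK
  obtain ⟨b1, b2, b3, b4, b5, b6⟩ := hbig Z
    (((le_max_right _ _).trans ((le_max_right _ _).trans (le_max_right _ _))).trans hZ)
  obtain ⟨w, hw⟩ : ∃ w : ℝ, w = (Real.log Z) ^ (1 / 60 : ℝ) := ⟨_, rfl⟩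
  obtain ⟨Y, hY⟩ : ∃ Y : ℝ, Y = Real.sqrt Z := ⟨_, rfl⟩
  rw [← hw] at e3 e4 e5 e6 e7 b1 b2 b4
  rw [← hY] at e5 e6 e7 s2 hevw' b3 b4 b5 b6
  have hYZ : Y * Y = Z := by rw [hY]; exact Real.mul_self_sqrt (by linarith)
  have hY1 : max Z₁ 1 ≤ Y := by
    rw [hY]
    exact Real.le_sqrt_of_sq_le ((le_max_left _ _).trans hZ)
  have hYone : 1 ≤ Y := (le_max_right _ _).trans hY1
  have hYleZ : Y ≤ Z := by nlinarith
  have hlogY : Real.log Y ≤ Real.log Z := Real.log_le_log (by linarith) hYleZ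
  have hA1 : (1 : ℝ) ≤ A := by exact_mod_cast hA
  have hB0 : (0 : ℝ) ≤ B := by positivity
  have hK0 : 0 < K := by linarith
  obtain ⟨G, hG⟩ : ∃ G : ℝ, G = ((A : ℝ) + 1) * ((B : ℝ) + 1) := ⟨_, rfl⟩
  rw [← hG] at hABK hevw'
  have hG1 : 1 ≤ G := by rw [hG]; nlinarith
  have hGw : G ≤ w := by
    have h1 : G * Real.log Z ≤ w * Real.log Z :=
      (mul_le_mul_of_nonneg_left hK (by positivity)).trans (hABK.trans e3)
    exact le_of_mul_le_mul_right h1 e1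
  -- the shift
  obtain ⟨k, hk1, hk2, hk3⟩ := hpick (B₀ + B) (by omega)
  obtain ⟨l, rfl⟩ : ∃ l : ℕ, k = l + 1 := ⟨k - 1, by omega⟩
  obtain ⟨h, hh⟩ : ∃ h : ℕ, h = m + Q * l := ⟨_, rfl⟩
  have hQl : l ≤ Q * l := Nat.le_mul_of_pos_left l hQ0
  have hR : 2 * B + 1 ≤ Q + 2 * h := by omega
  have hhR : ((Q + 2 * h : ℕ) : ℝ) ≤ E * (B + 1) := by
    have h1 : (l : ℝ) ≤ 2 * (B₀ + B) := by
      have : l ≤ 2 * (B₀ + B) := by omega
      exact_mod_cast this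
    have h2 : (Q : ℝ) * l ≤ Q * (2 * (B₀ + B)) := mul_le_mul_of_nonneg_left h1 (by positivity)
    have h3 : (0 : ℝ) ≤ B₀ := by positivity
    have h4 : (0 : ℝ) ≤ m := by positivity
    rw [hh, hE]
    push_cast
    have h5 : (Q : ℝ) * (B₀ + B) ≤ Q * ((B₀ + 1) * (B + 1)) := by
      apply mul_le_mul_of_nonneg_left _ (by positivity)
      nlinarith
    have h6 : (m : ℝ) ≤ m * ((B₀ + 1) * (B + 1)) := by
      apply le_mul_of_one_le_right h4
      nlinarith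
    have h7 : (Q : ℝ) ≤ Q * ((B₀ + 1) * (B + 1)) := by
      apply le_mul_of_one_le_right (by positivity)
      nlinarith
    nlinarith
  obtain ⟨N, hN⟩ : ∃ N : ℕ, N = A * (Q + 2 * h) + B := ⟨_, rfl⟩
  have hNG : (N : ℝ) ≤ E * G := by
    rw [hN]
    push_cast at hhR ⊢
    have h1 : (A : ℝ) * ((Q : ℝ) + 2 * h) ≤ A * (E * (B + 1)) := mul_le_mul_of_nonneg_left hhR (by positivity)
    have h2 : (B : ℝ) ≤ E * (B + 1) := by nlinarith
    have h3 : E * G = A * (E * (B + 1)) + E * (B + 1) := by rw [hG]; ring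
    linarith
  have hhG : (h : ℝ) ≤ E * G := by
    have h1 : (h : ℝ) ≤ N := by
      have : h ≤ N := by
        rw [hN]
        have : 1 * (Q + 2 * h) ≤ A * (Q + 2 * h) := Nat.mul_le_mul_right _ hA
        omega
      exact_mod_cast this
    linarith
  have hEGw : E * G ≤ w * w := mul_le_mul (hEF.trans b1) hGw (by linarith) (by linarith)
  have hQEG : (Q : ℝ) * (E * G) ≤ w ^ 2 := by
    have h1 : (Q : ℝ) * E * G ≤ w * w := mul_le_mul (hQEF.trans b1) hGw (by linarith) (by linarith)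
    nlinarith
  have hT1 : ∀ t ∈ (box A B).image (tmap Q h), 0 ≤ t.1 ∧ (t.1 : ℝ) ≤ (Real.log Y) ^ (1 / 20 : ℝ) ∧
      |(t.2 : ℝ)| ≤ (Real.log Y) ^ (1 / 20 : ℝ) ∧ (t.1 = 0 → 0 < t.2) := by
    intro t' ht'
    rw [mem_image] at ht'
    obtain ⟨t, ht, rfl⟩ := ht'
    obtain ⟨⟨h1, h2⟩, ⟨h3, h4⟩, h5⟩ := mem_box.1 ht
    have hAR : (t.1 : ℝ) ≤ A := by exact_mod_cast h2
    have hA0 : (0 : ℝ) ≤ t.1 := by exact_mod_cast h1
    have hw2 : w ^ 2 ≤ (Real.log Y) ^ (1 / 20 : ℝ) := by nlinarith [sq_nonneg w]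
    unfold tmap
    simp only
    refine ⟨by positivity, ?_, ?_, ?_⟩
    · push_cast
      refine le_trans ?_ hw2
      have h6 : (t.1 : ℝ) * (Q : ℝ) ^ 2 ≤ G * F := by
        apply mul_le_mul _ hQ2F (by positivity) (by linarith)
        rw [hG]
        nlinarith
      have h7 : G * F ≤ w * w := mul_le_mul hGw b1 hF0.le (by linarith)
      nlinarith
    · push_cast
      refine le_trans ?_ hw2
      refine le_trans ?_ hQEG
      rw [abs_mul, abs_of_nonneg (by positivity : (0 : ℝ) ≤ (Q : ℝ)), mul_comm]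
      apply mul_le_mul_of_nonneg_left _ (by positivity)
      refine le_trans ?_ hNG
      have h6 : |(t.2 : ℝ)| ≤ B := by
        have : |t.2| ≤ (B : ℤ) := abs_le.2 ⟨h3, h4⟩
        exact_mod_cast this
      have h7 : |2 * (t.1 : ℝ) * h + t.2| ≤ |2 * (t.1 : ℝ) * h| + |(t.2 : ℝ)| := abs_add_le _ _
      rw [abs_of_nonneg (by positivity : (0 : ℝ) ≤ 2 * (t.1 : ℝ) * h)] at h7
      rw [hN]
      push_cast
      have h8 : 2 * (t.1 : ℝ) * h ≤ A * (2 * h) := by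
        have := mul_le_mul_of_nonneg_right hAR (show (0 : ℝ) ≤ 2 * h by positivity)
        linarith
      have h9 : (0 : ℝ) ≤ A * Q := by positivity
      nlinarith
    · intro h6
      have hQz : (Q : ℤ) ^ 2 ≠ 0 := pow_ne_zero 2 (by exact_mod_cast hQ0.ne')
      have h7 : t.1 = 0 := by
        rcases mul_eq_zero.1 h6 with h8 | h8
        · exact h8
        · exact absurd h8 hQz
      have h8 := h5 h7
      rw [h7]
      have h9 : (0 : ℤ) < Q := by exact_mod_cast hQ0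
      have : (2 * 0 * (h : ℤ) + t.2) * Q = t.2 * Q := by ring
      rw [this]
      exact mul_pos h8 h9
  have hT2 : ∀ t ∈ (box A B).image (tmap Q h), ss 1 t ≠ 0 ∧ |(ss 1 t : ℝ)| ≤ Real.log Y := by
    intro t' ht'
    rw [mem_image] at ht'
    obtain ⟨t, ht, rfl⟩ := ht'
    obtain ⟨g1, g2⟩ := val_bounds hR ht
    have hRZ : ((Q + 2 * h : ℕ) : ℤ) = (Q : ℤ) + 2 * h := by push_cast; ring
    rw [ss_tmap, ← hRZ]
    have hQz : (0 : ℤ) < Q := by exact_mod_cast hQ0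
    have hpos : 0 < (Q : ℤ) * (t.1 * ((Q + 2 * h : ℕ) : ℤ) + t.2) := mul_pos hQz (by omega)
    refine ⟨hpos.ne', ?_⟩
    rw [abs_of_nonneg (by exact_mod_cast hpos.le)]
    rw [← hN] at g2
    have h1 : (Q : ℤ) * (t.1 * ((Q + 2 * h : ℕ) : ℤ) + t.2) ≤ Q * N :=
      mul_le_mul_of_nonneg_left g2 hQz.le
    have h2 : (((Q : ℤ) * (t.1 * ((Q + 2 * h : ℕ) : ℤ) + t.2) : ℤ) : ℝ) ≤ Q * N := by exact_mod_cast h1
    have h3 : (Q : ℝ) * N ≤ Q * (E * G) := mul_le_mul_of_nonneg_left hNG (by positivity)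
    have h4 : 0 ≤ w ^ 2 := sq_nonneg w
    linarith
  have hne : ((box A B).image (tmap Q h)).Nonempty := by
    rw [Finset.image_nonempty]
    exact ⟨(1, 0), mem_box.2 ⟨⟨by norm_num, by show (1 : ℤ) ≤ A; exact_mod_cast hA⟩,
      ⟨by simp, by simp⟩, by simp⟩⟩
  have hT3 : (∑ t ∈ (box A B).image (tmap Q h), GG (ss 1 t) ^ 2) * (3 * K) ≤ c₀ * ff Y := by
    have h0 := hsumC Q h A B hQ0 hR
    rw [← hg, ← hN] at h0
    have h1 : (∑ t ∈ (box A B).image (tmap Q h), GG (ss 1 t) ^ 2) * (3 * K) ≤ C * g ^ 2 * N * (3 * K) :=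
      mul_le_mul_of_nonneg_right h0 (by positivity)
    have h2 : C * g ^ 2 * N * (3 * K) ≤ C * g ^ 2 * (E * G) * (3 * K) := by
      gcongr
    have h3 : C * g ^ 2 * (E * G) * (3 * K) = 3 * C * g ^ 2 * E * (G * K) := by ring
    have h4 : 3 * C * g ^ 2 * E * (G * K) ≤ 3 * C * g ^ 2 * E * (c * ff Z) :=
      mul_le_mul_of_nonneg_left hABK (by positivity)
    have h5 : 3 * C * g ^ 2 * E * (c * ff Z) ≤ 3 * C * g ^ 2 * E * (c * (16 * ff Y)) := by
      gcongr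
    have h6 : 3 * C * g ^ 2 * E * (c * (16 * ff Y)) = c₀ * ff Y := by
      rw [hc]; field_simp; ring
    linarith
  have hQY : (Q : ℝ) * Y ≤ F * Y := mul_le_mul_of_nonneg_right hQF (by linarith)
  have hFw : 0 ≤ F * w := by positivity
  have hQR0 : (0 : ℝ) < Q := by linarith
  have hMm : Y ≤ M / Q := by
    rw [le_div_iff₀ hQR0]
    linarith
  obtain ⟨x, hx1, hx2, hx3, hx4⟩ := hmain Y ((le_max_left _ _).trans hY1) (M / Q) hMm
    ((box A B).image (tmap Q h)) 1 (3 * K) hne (by linarith) hT1 hT2 hT3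
  have hhFw : (h : ℝ) ≤ F * w := by
    refine hhG.trans ?_
    exact mul_le_mul hEF hGw (by linarith) hF0.le
  have hnM : (((Q * x + h : ℕ) : ℝ)) ≤ M + Z := by
    push_cast
    have h1 : (Q : ℝ) * x ≤ Q * (M / Q + Y) := mul_le_mul_of_nonneg_left hx2 hQR0.le
    have h2 : (Q : ℝ) * (M / Q + Y) = M + Q * Y := by field_simp
    linarith
  refine ⟨Q * x + h, ?_, hnM, ?_, ?_, fun a b d ha1 ha2 hb hab hd q hq => ?_⟩
  · push_cast
    rw [div_lt_iff₀ hQR0] at hx1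
    have : (0 : ℝ) ≤ h := by positivity
    linarith
  · have h1 : D ∣ Q * x + Q * l := by
      rw [hQ]
      exact dvd_add (Dvd.dvd.mul_right (Dvd.intro _ rfl) _) (Dvd.dvd.mul_right (Dvd.intro _ rfl) _)
    have e : Q * x + h = m + (Q * x + Q * l) := by rw [hh]; ring
    rw [e]
    have h2 : Q * x + Q * l ≡ 0 [MOD D] := (Nat.modEq_zero_iff_dvd).2 h1
    have h3 := Nat.ModEq.add_left m h2
    rwa [add_zero] at h3
  · intro j hj
    have hlow : |rho (Q * x + (m + Q * l) + j) - rho (m + j)| ≤ (ε / 4 + ε / 4) + ε / 4 := by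
      refine tot_part (J₀ := J₀) (t := t) (y := Real.log Y / 10) hm (by omega) hQt b5 ?_ hx3
        (fun j hj => ?_) (fun j hj => ?_) j hj
      · rw [← hh]
        have h1 : (h : ℝ) ≤ F * G := hhG.trans (mul_le_mul_of_nonneg_right hEF (by linarith))
        linarith
      · refine (hk3 j hj).trans ?_
        linarith
      · apply b6
        · have : 0 < Q * x + (m + Q * l) + j := by omega
          exact_mod_cast this
        · rw [← hh]
          have h1 : (j : ℝ) ≤ F := by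
            have : (j : ℝ) ≤ J₀ := by exact_mod_cast hj
            linarith
          push_cast at hnM ⊢
          linarith
    rw [← hh] at hlow
    linarith
  · have hmem : tmap Q h (a, b) ∈ (box A B).image (tmap Q h) :=
      Finset.mem_image_of_mem _ (mem_box.2 ⟨⟨ha1, ha2⟩, abs_le.1 hb, hab⟩)
    have h1 := hx4 _ hmem q hq
    unfold tmap at h1
    simp only at h1
    push_cast at h1 ⊢
    have haR : (a : ℝ) ≤ A := by exact_mod_cast ha2
    have ha0 : (0 : ℝ) ≤ a := by exact_mod_cast ha1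
    have hbR : |(b : ℝ)| ≤ B := by exact_mod_cast hb
    -- the constant term
    have h2 : |(a : ℝ) * (h : ℝ) ^ 2 + b * h| ≤ K := by
      have h3 : (a : ℝ) * (h : ℝ) ^ 2 + b * h = (a * h + b) * h := by ring
      rw [h3, abs_mul, abs_of_nonneg (by positivity : (0 : ℝ) ≤ (h : ℝ))]
      have h4 : |(a : ℝ) * h + b| ≤ N := by
        refine (abs_add_le _ _).trans ?_
        rw [abs_of_nonneg (by positivity : (0 : ℝ) ≤ (a : ℝ) * h), hN]
        push_cast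
        have h5 : (a : ℝ) * h ≤ A * h := mul_le_mul_of_nonneg_right haR (by positivity)
        have h6 : (0 : ℝ) ≤ A * Q := by positivity
        have h7 : (0 : ℝ) ≤ A * h := by positivity
        nlinarith
      have h5 : |(a : ℝ) * h + b| * h ≤ (w * w) * (w * w) :=
        mul_le_mul (h4.trans (hNG.trans hEGw)) (hhG.trans hEGw) (by positivity) (by positivity)
      have h6 : (w * w) * (w * w) = w ^ 4 := by ring
      linarith
    have h3 : (q : ℝ) - (a * ((Q : ℝ) * x + h) ^ 2 + b * ((Q : ℝ) * x + h) + d) =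
        ((q : ℝ) - (a * (Q : ℝ) ^ 2 * (x : ℝ) ^ 2 + (2 * a * h + b) * Q * x)) -
          ((a : ℝ) * (h : ℝ) ^ 2 + b * h) - d := by ring
    rw [h3]
    have h4 := abs_sub_abs_le_abs_sub ((q : ℝ) - (a * (Q : ℝ) ^ 2 * (x : ℝ) ^ 2 +
      (2 * a * h + b) * Q * x) - ((a : ℝ) * (h : ℝ) ^ 2 + b * h)) (d : ℝ)
    have h5 := abs_sub_abs_le_abs_sub ((q : ℝ) - (a * (Q : ℝ) ^ 2 * (x : ℝ) ^ 2 +
      (2 * a * h + b) * Q * x)) ((a : ℝ) * (h : ℝ) ^ 2 + b * h)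
    linarith

end Pool.Agent.K6.H26.PT
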